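import Pool.Agent.Lib.KJ.Blue

/-! Project kj, row `KIT`: calculus on the open set. -/

open scoped Classical Topology ContDiff ComplexOrder
open Set Complex Filter

noncomputable section

namespace Pool.Agent.Lib.KJ

open Pool.Agent.Lib.SV (E nsq)
open Pool.Agent.Lib.HS32 Pool.Agent.Lib.EXS.K32
open Pool.Agent.Lib.KH (OnK SmK HoK)

namespace KIT

variable {n : ℕ} {M : Mf n} {O : Set M.X} {F G : M.X → ℂ} {φ ψ : M.X → ℝ}

theorem cont {V : Type} [NormedAddCommGroup V] [NormedSpace ℝ V] {f : M.X → V} (hf : SmK M O f) :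
    ContinuousOn f O := fun x hx => by
  have h := (hf _ (Mf.ch_mem x) _ (Mf.ch_tgt x) (by rwa [Mf.ch_symm])).continuousAt
  refine ((h.comp ((M.ch x).continuousAt (Mf.mem_ch x))).congr ?_).continuousWithinAt
  filter_upwards [(M.ch x).open_source.mem_nhds (Mf.mem_ch x)] with y hy
  exact congrArg f ((M.ch x).left_inv hy)

theorem ev (hO : IsOpen O) {e : M.Ch} {z : E n} (hz : z ∈ e.target) (h : e.symm z ∈ O) :
    ∀ᶠ w in 𝓝 z, e.symm w ∈ O := (e.continuousAt_symm hz).eventually (hO.mem_nhds h)

theorem sm (h : HoK M O F) : SmK M O F := fun e he z hz k => hol_cd (h e he z hz k)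

theorem const (c : ℂ) : HoK M O fun _ => c :=
  fun _ _ _ _ _ => Eventually.of_forall fun _ => differentiableAt_const c

theorem add (h : HoK M O F) (h' : HoK M O G) : HoK M O fun x => F x + G x := fun e he z hz k =>
  ((h e he z hz k).and (h' e he z hz k)).mono fun _ a => a.1.add a.2

theorem mul (h : HoK M O F) (h' : HoK M O G) : HoK M O fun x => F x * G x := fun e he z hz k =>
  ((h e he z hz k).and (h' e he z hz k)).mono fun _ a => a.1.mul a.2

theorem pi {κ : Type} [Fintype κ] {F : κ → M.X → ℂ} (h : ∀ i, HoK M O (F i)) :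
    OnK M O fun e z => HolN (fun w i => F i (e.symm w)) z := fun e he z hz k =>
  (eventually_all.2 fun i => h i e he z hz k).mono fun _ a => differentiableAt_pi.2 a

theorem mk (h : OnK M O fun e z => ContDiffAt ℝ ∞ (φ ∘ e.symm) z ∧ ∀ v, 0 ≤ lv (φ ∘ e.symm) z v) :
    PsK M O φ := ⟨fun e he z hz k => (h e he z hz k).1,
  fun e he z hz k => psd_of_lv (h e he z hz k).1 (h e he z hz k).2⟩

theorem nn (h : PsK M O φ) : OnK M O fun e z => ∀ v, 0 ≤ lv (φ ∘ e.symm) z v :=
  fun e he z hz k v => (h.2 e he z hz k).re_dotProduct_nonneg v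

theorem padd (h : PsK M O φ) (h' : PsK M O ψ) : PsK M O fun x => φ x + ψ x :=
  mk fun e he z hz k => ⟨(h.1 e he z hz k).add (h'.1 e he z hz k), fun v =>
    (add_nonneg (nn h e he z hz k v) (nn h' e he z hz k v)).trans_eq
      (lv_add (h.1 e he z hz k) (h'.1 e he z hz k) v).symm⟩

theorem pconst (c : ℝ) : PsK M O fun _ => c :=
  mk fun _ _ _ _ _ => ⟨contDiffAt_const, fun v => (lv_const c v).ge⟩

end KIT

theorem bKIT : St_KIT := by
  intro n M O hO
  refine ⟨KIT.const, fun F G h h' => ⟨KIT.add h h', fun e he z hz k => ?_, KIT.mul h h',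
    fun m e he z hz k => (h e he z hz k).mono fun _ a => a.pow m, fun h0 e he z hz k => ?_⟩,
    fun F G h h' e he z hz k => ?_, fun F h => ⟨KIT.cont (KIT.sm h),
      fun O' s e he z hz k => h e he z hz (s k), fun h0 => KIT.mk fun e he z hz k => ?_⟩,
    fun κ _ F h => ⟨fun e he z hz k => ?_, ?_,
      KIT.cont fun e he z hz k => cd_nsq (KIT.pi h e he z hz k), fun R => ?_,
      fun h0 => KIT.mk fun e he z hz k => ?_⟩,
    fun φ h => ⟨KIT.cont h.1, fun O' s => ⟨fun e he z hz k => h.1 e he z hz (s k),
      fun e he z hz k => h.2 e he z hz (s k)⟩, fun t ht => KIT.mk fun e he z hz k =>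
        ⟨contDiffAt_const.mul (h.1 e he z hz k), fun v => (mul_nonneg ht
          (KIT.nn h e he z hz k v)).trans_eq (lv_mul (h.1 e he z hz k) t v).symm⟩,
      fun ψ => KIT.padd h, fun ψ h' => KIT.mk fun e he z hz k => ?_⟩, KIT.pconst, fun κ _ φ h => ?_⟩
  · exact ((h e he z hz k).and (h' e he z hz k)).mono fun _ a => a.1.sub a.2
  · filter_upwards [h e he z hz k, h' e he z hz k, KIT.ev hO hz k] with w a b c
      using a.mul (b.inv (h0 _ c))
  · filter_upwards [h e he z hz k, (KIT.ev hO hz k).eventually_nhds] with w a c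
      using a.congr_of_eventuallyEq (c.mono fun _ d => h' _ d)
  · have := lv_log (h e he z hz k) (h0 _ k)
    exact ⟨this.1, fun v => (this.2 v).ge⟩
  · exact (eventually_all.2 fun i => h i e he z hz k).mono fun _ a =>
      DifferentiableAt.fun_sum fun i _ => a i
  · induction (Finset.univ : Finset κ) using Finset.induction_on with
    | empty => simpa only [Finset.prod_empty] using KIT.const 1
    | insert i s hi a => simpa only [Finset.prod_insert hi] using KIT.mul (h i) a
  · induction R using MvPolynomial.induction_on with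
    | C a => simpa only [MvPolynomial.eval_C] using KIT.const a
    | add p q a b => simpa only [map_add] using KIT.add a b
    | mul_X p i a => simpa only [map_mul, MvPolynomial.eval_X] using KIT.mul a (h i)
  · have := lv_lg (KIT.pi h e he z hz k) fun e0 => (h0 _ k).ne' (by simp [nsq, congrFun e0 _])
    exact ⟨this.1, fun v => (this.2 v).1⟩
  · have a : ψ ∘ e.symm =ᶠ[𝓝 z] φ ∘ e.symm := (KIT.ev hO hz k).mono fun _ d => h' _ d
    exact ⟨(h.1 e he z hz k).congr_of_eventuallyEq a, fun v =>
      (KIT.nn h e he z hz k v).trans_eq (lv_congr a v).symm⟩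
  · induction (Finset.univ : Finset κ) using Finset.induction_on with
    | empty => simpa only [Finset.sum_empty] using KIT.pconst 0
    | insert i s hi a => simpa only [Finset.sum_insert hi] using KIT.padd (h i) a

end Pool.Agent.Lib.KJ
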