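import Pool.Agent.Lib.KJ.Blue

/-! Project kj: integrals. -/

open scoped Classical Topology ContDiff ENNReal
open Set MeasureTheory Complex Metric Filter

noncomputable section

namespace Pool.Agent.Lib.KJ

open Pool.Agent.Lib.HS32
open Pool.Agent.Lib.KH (HoK)

namespace INT

variable {n : ℕ} {M : Mf n} {O : Set M.X} {F : M.X → ℂ}

theorem cont (h : HoK M O F) : ContinuousOn F O := fun x hx => by
  obtain ⟨e, he, hs⟩ := M.cov x
  have k := (h e he _ (e.map_source hs) (by rwa [e.left_inv hs])).self_of_nhds.continuousAt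
  exact ((k.comp (e.continuousAt hs)).congr ((e.eventually_left_inverse hs).mono fun y hy =>
    congrArg F hy)).continuousWithinAt

theorem ind (hO : IsOpen O) (h : HoK M O F) : HoK M O (O.indicator F) := fun e he z hz ho => by
  have k : O.indicator F ∘ e.symm =ᶠ[𝓝 z] F ∘ e.symm :=
    ((e.continuousAt_symm hz).eventually (hO.mem_nhds ho)).mono fun w hw => indicator_of_mem hw F
  exact ((h e he z hz ho).and k.eventuallyEq_nhds).mono fun w hw =>
    hw.1.congr_of_eventuallyEq hw.2

theorem fin {ν : Measure M.X} (f f' : M.X → ℝ) (C : ℝ) (h : ∀ᵐ x ∂ν, 0 ≤ f' x ∧ f x ≤ C * f' x)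
    (h' : Iv ν f' ≠ ⊤) : Iv ν f ≠ ⊤ := by
  refine ne_top_of_le_ne_top (ENNReal.mul_ne_top (ENNReal.ofReal_ne_top (r := |C|)) h') ?_
  rw [Iv, Iv, ← lintegral_const_mul' _ _ ENNReal.ofReal_ne_top]
  refine lintegral_mono_ae (h.mono fun x hx => ?_)
  rw [← ENNReal.ofReal_mul (abs_nonneg C)]
  exact ENNReal.ofReal_le_ofReal (hx.2.trans (mul_le_mul_of_nonneg_right (le_abs_self C) hx.1))

end INT

theorem jINT : St_INT := by
  intro n M O ν h
  have m : ∀ (F : Type) [TopologicalSpace F] [MeasurableSpace F] [BorelSpace F] (f : M.X → F),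
      ContinuousOn f O → AEMeasurable f ν := fun F _ _ _ f hf => by
    have := hf.aemeasurable (μ := ν) h.op.measurableSet
    rwa [Measure.restrict_eq_self_of_ae_mem h.ae] at this
  refine ⟨fun e => ?_, m, INT.fin, fun ρ hρ h0 => ⟨⟨h.op, h.ne,
    (withDensity_absolutelyContinuous ν ρ).ae_le h.ae, fun f hf k => h.sees f hf
      ((withDensity_absolutelyContinuous' hρ h0).ae_le k)⟩, fun f hf =>
      lintegral_withDensity_eq_lintegral_mul₀ hρ hf.ennreal_ofReal⟩,
    fun F w hF hI => ⟨INT.ind h.op hF, fun x hx => indicator_of_notMem hx F, ?_⟩,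
    fun w hw w0 => ⟨⟨⟨⟨L2 M O ν w, fun {F G} hF hG => ⟨fun e he z hz ho =>
      ((hF.1 e he z hz ho).and (hG.1 e he z hz ho)).mono fun y hy => hy.1.add hy.2,
      fun x hx => by rw [Pi.add_apply, hF.2.1 x hx, hG.2.1 x hx, add_zero], ?_⟩⟩,
      fun _ _ _ _ _ => .of_forall fun _ => differentiableAt_const _, fun _ _ => rfl,
      by simp [Iv]⟩, fun c F hF => ⟨fun e he z hz ho => (hF.1 e he z hz ho).mono fun y hy =>
        hy.const_smul c, fun x hx => by rw [Pi.smul_apply, hF.2.1 x hx, smul_zero],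
        INT.fin _ _ (normSq c) (w0.mono fun x hx => ⟨mul_nonneg (normSq_nonneg _) hx, by
          rw [Pi.smul_apply, smul_eq_mul, map_mul, mul_assoc]⟩) hF.2.2⟩⟩, rfl⟩⟩
  · obtain ⟨x, hx⟩ := h.ne
    exact one_ne_zero (h.sees (fun _ => 1) continuousOn_const (by simp [e]) x hx)
  · refine (congrArg (· ≠ ⊤) (lintegral_congr_ae (h.ae.mono fun x hx => ?_))).mp hI
    simp only [indicator_of_mem hx]
  · refine INT.fin _ (fun x => normSq (F x) * w x + normSq (G x) * w x) 2
      (w0.mono fun x hx => ⟨add_nonneg (mul_nonneg (normSq_nonneg _) hx)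
        (mul_nonneg (normSq_nonneg _) hx), ?_⟩) (ne_top_of_le_ne_top
        (ENNReal.add_ne_top.2 ⟨hF.2.2, hG.2.2⟩) ((lintegral_mono fun x =>
          ENNReal.ofReal_add_le).trans_eq (lintegral_add_left' ((m ℝ _
            (continuous_normSq.comp_continuousOn (INT.cont hF.1))).mul hw).ennreal_ofReal _)))
    rw [← add_mul, ← mul_assoc]
    refine mul_le_mul_of_nonneg_right ?_ hx
    have := normSq_nonneg (F x - G x)
    rw [normSq_sub] at this
    rw [Pi.add_apply, normSq_add]
    linarith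

end Pool.Agent.Lib.KJ
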