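import Pool.Agent.Lib.KJ.Blue

/-! Project kj, row DEN: the common denominator. -/

open scoped Classical Topology
open Set MeasureTheory Complex Filter

noncomputable section

namespace Pool.Agent.Lib.KJ

open Pool.Agent.Lib.NV6.J (pv)

theorem jDEN (hK : St_KIT) : St_DEN := by
  intro n r M O μ d k h W B u c m C hM hR hm hC
  choose e A B' hA hB hne hAB using fun i => hR c (C i) (hC i).1
  have key : ∀ i, ∀ x ∈ O, C i x * ∏ j, pv h (A j) x =
      pv h (B' i * ∏ j ∈ Finset.univ.erase i, A j) x := fun i x hx => by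
    have h8 : pv h (B' i * ∏ j ∈ Finset.univ.erase i, A j) x =
        pv h (B' i) x * ∏ j ∈ Finset.univ.erase i, pv h (A j) x := by
      simp only [pv, map_mul, map_prod]
    rw [h8, ← Finset.mul_prod_erase _ _ (Finset.mem_univ i), ← mul_assoc, hAB i x hx]
  refine ⟨∑ i, e i, fun i => B' i * ∏ j ∈ Finset.univ.erase i, A j,
    fun x => (∏ j, pv h (A j) x)⁻¹, ⟨hm, fun i => ?_, fun i => ?_⟩, fun x hx => ?_⟩
  · rw [← Finset.add_sum_erase _ _ (Finset.mem_univ i)]
    exact (hB i).mul (MvPolynomial.IsHomogeneous.prod _ _ _ fun j _ => hA j)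
  · by_contra h0
    push Not at h0
    have h1 : ∀ x ∈ O, C i x = 0 := by
      refine hM.sees _ ((hK n M O hM.op).2.2.2.1 _ (hC i).1.1).1 ?_
      filter_upwards [hM.ae, ae_all_iff.2 fun j => hM.nul _ (hne j)] with x hx hA0
      exact (mul_eq_zero.1 ((key i x hx).trans (h0 x hx))).resolve_right
        (Finset.prod_ne_zero_iff.2 fun j _ => hA0 j)
    refine (hC i).2 (funext fun x => ?_)
    by_cases hx : x ∈ O
    · exact h1 x hx
    · exact (hC i).1.2.1 x hx
  · have h4 : ∏ j, pv h (A j) x ≠ 0 := Finset.prod_ne_zero_iff.2 fun j _ h0 => hx.2 j (by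
      rw [← key j x hx.1, Finset.prod_eq_zero (Finset.mem_univ j) h0, mul_zero])
    refine ⟨inv_ne_zero h4, fun i => ?_⟩
    rw [← key i x hx.1, mul_comm (C i x), inv_mul_cancel_left₀ h4]

end Pool.Agent.Lib.KJ
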