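import Pool.Agent.Lib.KJ.Blue
import Pool.Agent.Lib.NV6.C_HOM
import Pool.Agent.Lib.NV6.C_SEC
import Pool.Agent.Lib.NV6.C_SPH

/-! Project kj, row GDV: the measure on the model. -/

open scoped Classical Topology ENNReal
open Set MeasureTheory Complex Filter

noncomputable section

namespace Pool.Agent.Lib.KJ

open Pool.Agent.Lib.SV (E nsq)
open Pool.Agent.Lib.HS32 Pool.Agent.Lib.NV6
open Pool.Agent.Lib.KH (HoK)
open Pool.Agent.Lib.S5 (GoodV Vs)

namespace GDV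

/-- The spaces of sections are finite on the support of the measure. -/
theorem vs {Y I J : Type} [Fintype I] [Fintype J] {O : Set Y} {Z : Set (I × J → ℂ)}
    {a : I → Y → ℂ} {b : J → Y → ℂ} {p : Y → Sph Z} {m : Measure (Sph Z)}
    (vl : ∀ j : ℕ, ∀ y ∈ O, ∃ t : ℂ, t ≠ 0 ∧ ∀ S, Sec Z j 0 S →
      S ((a · y), (b · y)) = t * S (p y).1)
    (ae : ∀ T : Set (Sph Z), IsClosed T → (∀ y ∈ O, p y ∈ T) → ∀ᵐ u ∂m, u ∈ T)
    (fd : ∀ j : ℕ, ∃ W : Submodule ℂ (Y → ℂ), FiniteDimensional ℂ W ∧ ∀ S, Sec Z j 0 S →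
      ∃ s ∈ W, ∀ y ∈ O, s y = S ((a · y), (b · y))) : Vs Z m fun j => {S | Sec Z j 0 S} := by
  have hS : St_SEC := cSEC cHOM
  have hP : St_SPH := cSPH cHOM
  refine ⟨fun _ _ _ h => h, fun j k _ _ F h => by simpa using hS.pow k h, fun j _ => ?_⟩
  obtain ⟨W, w1, w2⟩ := fd j
  let U : Submodule ℂ (Y → ℂ) :=
    { carrier := {s | s ∈ W ∧ ∃ S, Sec Z j 0 S ∧ ∀ y ∈ O, s y = S ((a · y), (b · y))}
      add_mem' := fun ⟨h1, S, h2, h3⟩ ⟨h4, S', h5, h6⟩ => ⟨W.add_mem h1 h4, _, hS.add h2 h5,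
        fun y hy => congrArg₂ (· + ·) (h3 y hy) (h6 y hy)⟩
      zero_mem' := ⟨W.zero_mem, fun _ => 0, fun _ _ => ⟨0, 0,
        MvPolynomial.isHomogeneous_zero _ _ _, fun _ _ => by simp⟩, fun _ _ => rfl⟩
      smul_mem' := fun c _ ⟨h1, S, h2, h3⟩ => ⟨W.smul_mem c h1, _, hS.smul c h2,
        fun y hy => congrArg (c * ·) (h3 y hy)⟩ }
  have : FiniteDimensional ℂ U := Submodule.finiteDimensional_of_le (S₂ := W) fun _ h => h.1
  obtain ⟨r, e, he⟩ := Module.Finite.exists_fin (R := ℂ) (M := U)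
  choose B b1 b2 using fun l => (e l).2.2
  refine ⟨r, B, b1, fun F hF => ?_⟩
  obtain ⟨s, s1, s2⟩ := w2 F hF
  obtain ⟨c, hc⟩ := (Submodule.mem_span_range_iff_exists_fun ℂ).1
    (he.ge (Submodule.mem_top (x := ⟨s, s1, F, hF, s2⟩)))
  refine ⟨c, ae _ (isClosed_eq (hP.cont hF) (continuous_finsetSum _ fun l _ =>
    continuous_const.mul (hP.cont (b1 l)))) fun y hy => ?_⟩
  obtain ⟨t, t0, ht⟩ := vl j y hy
  have h := congrFun (congrArg Subtype.val hc) y
  simp only [Submodule.coe_sum, Submodule.coe_smul, Finset.sum_apply, Pi.smul_apply, smul_eq_mul,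
    fun l => b2 l y hy, s2 y hy, ht F hF, fun l => ht _ (b1 l),
    mul_left_comm (c _), ← Finset.mul_sum] at h
  exact (mul_left_cancel₀ t0 h).symm

end GDV

theorem jGDV (hK : St_KIT) (hI : St_INT) (hL : St_PUL) (hG : St_GOO) : St_GDV := by
  intro n M O ν I J _ _ Z a b p x θ mp dq fd van
  have hP : St_SPH := cSPH cHOM
  have := hP.cpt mp.cone
  obtain ⟨ν0, aem, -⟩ := hI n M O ν dq.toMs
  obtain ⟨-, -, k3, -, k5, -⟩ := hK n M O mp.op
  obtain ⟨l1, -⟩ := (hL n M O I J Z a b).2 p mp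
  have ae := dq.ae
  have pH : ∀ y ∈ O, 0 < hp a b y := fun y hy => mul_pos (mp.eq y hy).1 (mp.eq y hy).2.1
  have pT : ∀ y ∈ O, 0 < tq a b y := fun y hy => div_pos (mp.eq y hy).1 (mp.eq y hy).2.1
  have ca := (k5 I a mp.ha).2.2.1
  have cb := (k5 J b mp.hb).2.2.1
  obtain ⟨σ, hσ⟩ : ∃ σ : M.X → ℝ, ∀ y, tq a b y ^ x * hp a b y ^ (-θ) = σ y := ⟨_, fun _ => rfl⟩
  have σ0 : ∀ y ∈ O, 0 < σ y := fun y hy =>
    hσ y ▸ mul_pos (Real.rpow_pos_of_pos (pT y hy) _) (Real.rpow_pos_of_pos (pH y hy) _)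
  have mσ : AEMeasurable (fun y => ENNReal.ofReal (σ y)) ν :=
    (aem ℝ σ ((((ca.div cb fun y hy => (mp.eq y hy).2.1.ne').rpow_const (p := x)
      fun y hy => Or.inl (pT y hy).ne').mul ((ca.mul cb).rpow_const (p := -θ) fun y hy =>
        Or.inl (pH y hy).ne')).congr fun y _ => (hσ y).symm)).ennreal_ofReal
  have mp' := aem _ p mp.ct
  have ac' := withDensity_absolutelyContinuous ν fun y => ENNReal.ofReal (σ y)
  let m : Measure (Sph Z) := (ν.withDensity fun y => ENNReal.ofReal (σ y)).map p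
  have lm : ∀ f : Sph Z → ℝ≥0∞, Measurable f →
      ∫⁻ y, ENNReal.ofReal (σ y) * f (p y) ∂ν = ∫⁻ u, f u ∂m := fun f hf => by
    rw [lintegral_map' hf.aemeasurable (mp'.mono_ac ac')]
    exact (lintegral_withDensity_eq_lintegral_mul₀ mσ (hf.comp_aemeasurable mp')).symm
  have : IsFiniteMeasure (ν.withDensity fun y => ENNReal.ofReal (σ y)) := by
    refine isFiniteMeasure_withDensity ?_
    have h := dq.fin
    simp only [Iv, hσ] at h
    exact h
  have : NeZero m := ⟨fun h => ν0 (Measure.absolutelyContinuous_zero_iff.1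
    ((Measure.map_eq_zero_iff (mp'.mono_ac ac')).1 h ▸ withDensity_absolutelyContinuous' mσ
      (ae.mono fun y hy => (ENNReal.ofReal_pos.2 (σ0 y hy)).ne')))⟩
  have gd : GoodV Z 1 m x θ fun j => {S | Sec Z j 0 S} := by
    refine hG n M O ν I J Z a b p x θ m mp dq.toMs dq.hq (fun f hf f0 => ?_) van
    have mf := hf.measurable.ennreal_ofReal
    rw [ofReal_integral_eq_lintegral_ofReal
      (hf.integrable_of_hasCompactSupport (HasCompactSupport.of_compactSpace f)) (ae_of_all _ f0),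
      ← lm _ mf]
    refine lintegral_congr_ae (ae.mono fun y hy => ?_)
    beta_reduce
    rw [hσ, ENNReal.ofReal_mul (σ0 y hy).le]
  refine ⟨⟨(m univ)⁻¹ • m, inferInstance⟩, fun q N e t c₀ s s' γ β N0 t0 k1 k2 k3 k4 k5 => ?_,
    GDV.vs (O := O) (a := a) (b := b) (p := p) (fun j y hy => ⟨_, ofReal_ne_zero.2
      (Real.exp_pos ((j * Real.log (tq a b y) + (0 : ℕ) * Real.log (hp a b y)) / 2)).ne',
        fun S h => ((l1 j 0 S h).2 y hy).1⟩)
      (fun T hT h => Measure.ae_smul_measure ((ae_map_iff (mp'.mono_ac ac')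
      hT.measurableSet).2 (ac'.ae_le (ae.mono h))) _) fun j => ?_,
    m univ, NeZero.ne _, measure_ne_top _ _, fun f hf => ?_⟩
  · obtain ⟨F, f1, f2⟩ := gd q N e t c₀ s s' γ β N0 t0 k1 k2 k3 k4 k5
    refine ⟨F, f1, ?_⟩
    change ∫ u, _ ∂((m univ)⁻¹ • m) ≤ _ * ∫ u, _ ∂((m univ)⁻¹ • m)
    rw [integral_smul_measure, integral_smul_measure, smul_eq_mul, smul_eq_mul, mul_left_comm]
    exact mul_le_mul_of_nonneg_left f2 ENNReal.toReal_nonneg
  · obtain ⟨V, v1, v2⟩ := fd j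
    refine ⟨V, v1, fun S h => ⟨O.indicator fun y => S ((a · y), (b · y)), v2 ?_,
      fun y hy => indicator_of_mem hy _⟩⟩
    obtain ⟨s1, s2⟩ := l1 j 0 S h
    obtain ⟨B, hB⟩ := (isCompact_range (continuous_normSq.comp (hP.cont h))).bddAbove
    refine ⟨k3 _ _ s1 fun y hy => indicator_of_mem hy _, fun y hy => indicator_of_notMem hy _,
      B, fun y hy => ?_⟩
    rw [indicator_of_mem hy, (s2 y hy).2, Nat.cast_zero, zero_mul, add_zero, Real.exp_nat_mul,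
      Real.exp_log (pT y hy)]
    exact mul_le_mul_of_nonneg_right (hB ⟨p y, rfl⟩) (pow_pos (pT y hy) j).le
  · change _ = _ * ∫⁻ u, _ ∂((m univ)⁻¹ • m)
    simp only [hσ]
    rw [lm f hf, lintegral_smul_measure, smul_eq_mul, ← mul_assoc,
      ENNReal.mul_inv_cancel (NeZero.ne _) (measure_ne_top _ _), one_mul]

end Pool.Agent.Lib.KJ
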