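import Pool.Agent.Lib.KJ.Blue
import Pool.Agent.Lib.NV6.J_FRM

/-! Project kj, row GEN: the generators at all levels. -/

noncomputable section

namespace Pool.Agent.Lib.KJ

open Pool.Agent.Lib.NV6.J (Cb jFRM)

theorem bGEN (hIDL : St_IDL) (hIDV : St_IDV) (hLEV : St_LEV) (hMUL : St_MUL) : St_GEN := by
  intro n r M O μ d k h W B u hM
  obtain ⟨-, -, -, hI⟩ := hIDL n r M O μ d k h W B u hM
  have hc : 4 * r + k + 1 < 4 * r + 1 + k + 1 := by omega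
  have key : ∀ N : ℕ, 0 < N → ∃ (m : ℕ) (s : Fin m → M.X → ℂ),
      (∀ j, s j ∈ Id M O μ d k h W B N (4 * r + 1 + k + 1) ∧ s j ≠ 0) ∧
      ∀ q, ∀ F ∈ Id M O μ d k h W B N (4 * r + 1 + k + 1 + q), Cb O h q s F := fun N hN => by
    obtain ⟨S, hS, e⟩ := (hI N (4 * r + 1 + k + 1) hN).2
    obtain ⟨m, s, h1, h2⟩ := (jFRM M.X r O h).1 S hS
    exact ⟨m, s, fun j => ⟨e ▸ (h1 j).1, (h1 j).2⟩, fun q F hF =>
      h2 q F (e ▸ hIDV n r M O μ d k h W B u N _ q hM hN hc F hF)⟩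
  have hL := hLEV n r M O μ d k h W B u hM
  obtain ⟨m, C, c1, c2⟩ := key 1 one_pos
  refine ⟨4 * r + 1 + k + 1, m, C, ?_, fun i => ⟨(hI 1 _ one_pos).1 (c1 i).1, (c1 i).2⟩,
    fun q => ?_, fun j j0 s hs a l => c2 j _ ((hL _ j).2.1 a _
      (hMUL n r M O μ d k h W B u j _ s hM j0 hs _ (c1 l).1))⟩
  · obtain ⟨F, hF, x, hx, h0⟩ := (hL (4 * r + 1 + k) 0).2.2
    obtain ⟨R, -, hR⟩ := c2 0 F hF
    rcases Nat.eq_zero_or_pos m with rfl | hm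
    · exact (h0 (by simpa using hR x hx)).elim
    · exact hm
  obtain ⟨m', s, s1, s2⟩ := key (q + 1) q.succ_pos
  exact ⟨m', s, fun a => ⟨fun j => c2 q _ ((hL _ q).2.1 a _ (s1 j).1),
    fun i => s2 q _ ((hL _ q).1 a _ (c1 i).1)⟩⟩

end Pool.Agent.Lib.KJ
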