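import Pool.Agent.Lib.KJ.Blue
import Pool.Agent.Lib.NV6.C_HOM
import Pool.Agent.Lib.NV6.C_SEC
import Pool.Agent.Lib.NV6.C_SPH
import Pool.Agent.Lib.NV6.C_ADM

/-! Project kj, row GOO: the estimate for the image of a measure. -/

open scoped Classical Topology ContDiff ENNReal
open Set MeasureTheory Complex Metric Filter

noncomputable section

namespace Pool.Agent.Lib.KJ

open Pool.Agent.Lib.SV (E nsq)
open Pool.Agent.Lib.HS32 Pool.Agent.Lib.NV6
open Pool.Agent.Lib.KH (HoK)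
open Pool.Agent.Lib.S5 (ww uu)

theorem jGOO (hPUL : St_PUL) (hTST : St_TST) : St_GOO := by
  intro n M O ν I J _ _ Z a b p x ε m mp ms H li0 van
  have hP := cSPH cHOM
  have hA := cADM (cSEC cHOM) hP
  have pT : ∀ y ∈ O, 0 < tq a b y := fun y hy => div_pos (mp.eq y hy).1 (mp.eq y hy).2.1
  have pH : ∀ y ∈ O, 0 < hp a b y := fun y hy => mul_pos (mp.eq y hy).1 (mp.eq y hy).2.1
  have li : ∀ f : Sph Z → ℝ, Continuous f → (∀ u, 0 ≤ f u) → ∀ g : M.X → ℝ,
      (∀ y ∈ O, g y = Real.exp (x * Real.log (tq a b y) - ε * Real.log (hp a b y)) * f (p y)) →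
      Iv ν g = ENNReal.ofReal (∫ u, f u ∂m) := fun f hf f0 g hg => by
    rw [← li0 f hf f0]
    refine lintegral_congr_ae (ms.ae.mono fun y hy => congrArg ENNReal.ofReal ?_)
    beta_reduce
    rw [hg y hy, Real.rpow_def_of_pos (pT y hy), Real.rpow_def_of_pos (pH y hy), ← Real.exp_add]
    exact congrArg (fun t => Real.exp t * f (p y)) (by ring)
  intro q N e θ c₀ s s' γ β N0 θ0 h1 h2 h3 h4 h5
  have := hP.cpt mp.cone
  obtain ⟨x₀, h₀⟩ := ms.ne
  obtain ⟨l1, l2⟩ := (hPUL n M O I J Z a b).2 p mp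
  obtain ⟨A, hA'⟩ : ∃ A : M.X → ℝ, ∀ y, Real.log (tq a b y) = A y := ⟨_, fun _ => rfl⟩
  obtain ⟨B, hB'⟩ : ∃ B : M.X → ℝ, ∀ y, Real.log (hp a b y) = B y := ⟨_, fun _ => rfl⟩
  simp only [hA', hB'] at l1 l2 li
  have vl := fun {q e S} (h : Sec Z q e S) {y} (hy : y ∈ O) => ((l1 q e S h).2 y hy).1
  have p1 := l2 _ _ _ h3
  have p3 := l2 _ _ _ (hA.mono (le_sub_iff_add_le.2 h5) h4)
  have s1 := (l1 _ _ _ h1).1
  have s2 := fun y hy => ((l1 _ _ _ h1).2 y hy).2
  have s3 := (l1 _ _ _ h2).1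
  have s4 := fun y hy => ((l1 _ _ _ h2).2 y hy).2
  obtain ⟨cγ, -⟩ := hA.cadm h3
  obtain ⟨cβ, y0, -⟩ := hA.cadm h4
  obtain ⟨ψ, p2⟩ : ∃ ψ : M.X → ℝ, ψ = fun y => γ (p y) + (q * A y + e * B y) := ⟨_, rfl⟩
  obtain ⟨φ, p4⟩ : ∃ φ : M.X → ℝ, φ = fun y => β (p y) +
    ((N - x - θ * q) * A y + (ε - θ * e) * B y) := ⟨_, rfl⟩
  replace p1 : PsK M O ψ := p2 ▸ p1
  replace p3 : PsK M O φ := p4 ▸ p3
  replace p2 := congrFun p2
  replace p4 := congrFun p4
  have g0 : ∀ u : Sph Z, 0 < normSq (s u.1) + Real.exp (γ u) := fun u =>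
    add_pos_of_nonneg_of_pos (normSq_nonneg _) (Real.exp_pos _)
  have c1 := continuous_normSq.comp (hP.cont h1)
  have cr := fun t : ℝ => (c1.add cγ.rexp).rpow_const (p := t) fun u => Or.inl (g0 u).ne'
  have cd : Continuous (den s s' γ β θ) :=
    ((continuous_normSq.comp (hP.cont h2)).mul (cr _)).mul cβ.neg.rexp
  have d0 : ∀ u, 0 ≤ den s s' γ β θ u := fun u => mul_nonneg
    (mul_nonneg (normSq_nonneg _) (Real.rpow_nonneg (g0 u).le _)) (Real.exp_pos _).le
  have e0 : ∀ y ∈ O, normSq (s ((a · y), (b · y))) + Real.exp (ψ y) =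
      (normSq (s (p y).1) + Real.exp (γ (p y))) * Real.exp (q * A y + e * B y) := fun y hy => by
    rw [s2 y hy, p2, Real.exp_add (γ _), ← add_mul]
  have eN : ∀ y ∈ O, ∀ t : ℝ, (normSq (s ((a · y), (b · y))) + Real.exp (ψ y)) ^ t =
      (normSq (s (p y).1) + Real.exp (γ (p y))) ^ t * Real.exp ((q * A y + e * B y) * t) :=
    fun y hy t => by
      rw [e0 y hy, Real.mul_rpow (g0 _).le (Real.exp_pos _).le, ← Real.exp_mul]
  have ed : ∀ y ∈ O, ∀ r : ℝ, r * Real.exp (q * A y + e * B y) *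
      normSq (s' ((a · y), (b · y))) *
      (normSq (s ((a · y), (b · y))) + Real.exp (ψ y)) ^ (-2 - θ) * Real.exp (-φ y) =
        Real.exp (x * A y - ε * B y) * (r * den s s' γ β θ (p y)) := fun y hy r => by
    rw [eN y hy, s4 y hy, p4, NV6.den, neg_add (β _), Real.exp_add (-β _), neg_add' 2 θ,
      show x * A y - ε * B y = q * A y + e * B y + ((q + N : ℕ) * A y + e * B y) +
        (q * A y + e * B y) * (-2 - θ) + -((N - x - θ * q) * A y + (ε - θ * e) * B y) by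
          push_cast; ring,
      Real.exp_add (_ + _ + _), Real.exp_add (_ + (_ + _)), Real.exp_add (_ + _) (_ + _)]
    ring
  have i1 := li (fun u => normSq (s u.1) * den s s' γ β θ u) (c1.mul cd)
    (fun u => mul_nonneg (normSq_nonneg _) (d0 u))
    (fun y => normSq (s ((a · y), (b · y))) * normSq (s' ((a · y), (b · y))) *
      (normSq (s ((a · y), (b · y))) + Real.exp (ψ y)) ^ (-2 - θ) * Real.exp (-φ y)) fun y hy =>
    (congrArg (· * _ * _ * _) (s2 y hy)).trans (ed y hy _)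
  have i2 := li (fun u => Real.exp (γ u) * den s s' γ β θ u) (cγ.rexp.mul cd)
    (fun u => mul_nonneg (Real.exp_pos _).le (d0 u))
    (fun y => Real.exp (ψ y) * normSq (s' ((a · y), (b · y))) *
      (normSq (s ((a · y), (b · y))) + Real.exp (ψ y)) ^ (-2 - θ) * Real.exp (-φ y)) fun y hy =>
    (congrArg (· * _ * _ * _) (by rw [p2, Real.exp_add])).trans (ed y hy _)
  obtain ⟨F, f1, f2, f3⟩ := hTST n M O ν _ _ ψ φ θ ms H s1 s3 p1 p3 θ0
    (i1 ▸ ENNReal.ofReal_ne_top) (i2 ▸ ENNReal.ofReal_ne_top)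
  have ew : ∀ y ∈ O, (normSq (s ((a · y), (b · y))) + Real.exp (ψ y)) ^ (-θ) * Real.exp (-φ y) =
      ww s γ β θ (p y) * Real.exp (-(N - x) * A y - ε * B y) := fun y hy => by
    rw [eN y hy, p4, neg_add (β _), Real.exp_add (-β _), mul_mul_mul_comm, ← Real.exp_add (_ * _)]
    exact congrArg (fun t => ww s γ β θ (p y) * Real.exp t) (by ring)
  have cw : Continuous (ww s γ β θ) := (cr (-θ)).mul cβ.neg.rexp
  have w0 : ∀ u, 0 < ww s γ β θ u := fun u =>
    mul_pos (Real.rpow_pos_of_pos (g0 u) _) (Real.exp_pos _)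
  obtain ⟨u, -, hu⟩ := isCompact_univ.exists_isMinOn ⟨p x₀, mem_univ _⟩ cw.continuousOn
  obtain ⟨S, t1, t2⟩ := van N N0 (by nlinarith [q.cast_nonneg (α := ℝ)]) F f1
    (ne_top_of_le_ne_top (ENNReal.mul_ne_top (ENNReal.ofReal_ne_top (r := (ww s γ β θ u)⁻¹)) f2) (by
      rw [Iv, Iv, ← lintegral_const_mul' _ _ ENNReal.ofReal_ne_top]
      refine lintegral_mono_ae (ms.ae.mono fun y hy => ?_)
      rw [← ENNReal.ofReal_mul (inv_pos.2 (w0 u)).le, ew y hy, Real.rpow_def_of_pos (pT y hy),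
        Real.rpow_def_of_pos (pH y hy), ← Real.exp_add, hA', hB', mul_left_comm]
      refine ENNReal.ofReal_le_ofReal (mul_le_mul_of_nonneg_left ?_ (normSq_nonneg _))
      rw [le_inv_mul_iff₀ (w0 u)]
      exact mul_le_mul (hu (mem_univ (p y))) (le_of_eq (congrArg _ (by ring))) (Real.exp_pos _).le
        (w0 _).le))
  refine ⟨S, t1, ?_⟩
  have cu : Continuous (uu s s' γ) := ((hP.cont h2).mul (continuous_conj.comp (hP.cont h1))).div
    (continuous_ofReal.comp (c1.add cγ.rexp)) fun u => ofReal_ne_zero.2 (g0 u).ne'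
  have i3 := li (fun u => normSq (uu s s' γ u - S u.1) * ww s γ β θ u)
    ((continuous_normSq.comp (cu.sub (hP.cont t1))).mul cw)
    (fun u => mul_nonneg (normSq_nonneg _) (w0 u).le)
    (fun y => normSq (s' ((a · y), (b · y)) * (star (s ((a · y), (b · y))) *
      ((normSq (s ((a · y), (b · y))) + Real.exp (ψ y))⁻¹ : ℝ)) - F y) *
      ((normSq (s ((a · y), (b · y))) + Real.exp (ψ y)) ^ (-θ) * Real.exp (-φ y))) fun y hy => by
    have k : s' ((a · y), (b · y)) * (star (s ((a · y), (b · y))) *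
        ((normSq (s ((a · y), (b · y))) + Real.exp (ψ y))⁻¹ : ℝ)) - F y =
        (Real.exp (N * A y / 2) : ℝ) * (uu s s' γ (p y) - S (p y).1) := by
      rw [t2 y hy, e0 y hy, vl h1 hy, vl h2 hy, vl t1 hy, uu, show (((q + N : ℕ) : ℝ) * A y +
          e * B y) / 2 = (q * A y + e * B y) / 2 + N * A y / 2 by push_cast; ring,
        ← add_halves (q * A y + e * B y), Real.exp_add, Real.exp_add, add_halves, Nat.cast_zero,
        zero_mul, add_zero, star_mul', star_def, conj_ofReal]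
      have := ofReal_ne_zero.2 (g0 (p y)).ne'
      have := ofReal_ne_zero.2 (Real.exp_pos ((q * A y + e * B y) / 2)).ne'
      rw [ofReal_inv, ofReal_mul, ofReal_mul, ofReal_mul]
      field_simp
    rw [k, ew y hy, map_mul, normSq_ofReal, ← Real.exp_add,
      show x * A y - ε * B y = N * A y / 2 + N * A y / 2 + (-(N - x) * A y - ε * B y) by ring,
      Real.exp_add (_ + _)]
    ring
  have i0 : 0 ≤ ∫ u, Real.exp (γ u) * den s s' γ β θ u ∂m :=
    integral_nonneg fun u => mul_nonneg (Real.exp_pos (γ u)).le (d0 u)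
  rw [i3, i2, ← ENNReal.ofReal_mul (by positivity), ENNReal.ofReal_le_ofReal_iff
    (mul_nonneg (by positivity) i0)] at f3
  exact f3

end Pool.Agent.Lib.KJ
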