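import Pool.Agent.Lib.KJ.Blue
import Pool.Agent.Lib.NV6.J_IDL

/-! Project kj, row IDL: the ideals are spaces of finite dimension. -/

open scoped Classical Topology ContDiff ENNReal
open Set MeasureTheory Complex Metric Filter

noncomputable section

namespace Pool.Agent.Lib.KJ

open Pool.Agent.Lib.SV (E nsq)
open Pool.Agent.Lib.HS32
open Pool.Agent.Lib.NV6.J (qt)
open Pool.Agent.Lib.NV6.J.IDLk (npos mono)

theorem bIDL (hKIT : St_KIT) (hINT : St_INT) : St_IDL := by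
  intro n r M O μ d k h W B u m
  obtain ⟨-, -, -, -, kN, -⟩ := hKIT n M O m.op
  obtain ⟨-, kM, kI, -, -, kS⟩ := hINT n M O μ m.toMs
  have pT : ∀ x ∈ O, 0 < qt W h x := fun x hx =>
    div_pos (npos (m.pos x hx) (m.hne x hx).2) (m.pos x hx)
  have pA : ∀ᵐ x ∂μ, x ∈ O ∧ 0 < bt h k B x ∧ ∀ N s c, 0 < om d k h W B N s c x := by
    filter_upwards [m.ae, m.B0] with x hx hB
    have b : 0 < bt h k B x := div_pos hB (pow_pos (m.pos x hx) _)
    exact ⟨hx, b, fun N s c => div_pos (mul_pos (Real.rpow_pos_of_pos (pT x hx) _)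
      (Real.rpow_pos_of_pos b _)) (pow_pos (m.pos x hx) _)⟩
  have mh : AEMeasurable (fun x => nsq (h · x)) μ := kM ℝ _ (kN (Fin r) h m.hol).2.2.1
  have mW : AEMeasurable (fun x => nsq (W · x)) μ := kM ℝ _ (kN (Fin r) W m.hW).2.2.1
  have mO : ∀ N s c, AEMeasurable (om d k h W B N s c) μ := fun N s c =>
    (((mW.div mh).pow_const _).mul ((m.mB.div (mh.pow_const k)).pow_const _)).div (mh.pow_const c)
  refine ⟨pT, pA, mO, fun N c hN => ?_⟩
  obtain ⟨C1, h1⟩ := m.r1 N hN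
  obtain ⟨C2, h2⟩ := m.rb
  have dn : ∀ s t : ℝ, s ≤ t → L2 M O μ (om d k h W B N t c) ⊆ L2 M O μ (om d k h W B N s c) :=
    fun s t hst F hF => ⟨hF.1, hF.2.1, kI _ _ (C2 ^ (t - s)) (by
      filter_upwards [pA, h2] with x hx b2
      refine ⟨mul_nonneg (normSq_nonneg _) (hx.2.2 N t c).le, ?_⟩
      have e := mul_le_mul_of_nonneg_left (mono hx.2.1 b2 hst) (mul_nonneg (normSq_nonneg (F x))
        (div_pos (Real.rpow_pos_of_pos (pT x hx.1) ((1 : ℝ) / d - N))
          (pow_pos (m.pos x hx.1) c)).le)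
      unfold om
      calc _ = _ := by ring
        _ ≤ _ := e
        _ = _ := by ring) hF.2.2⟩
  have sub : Id M O μ d k h W B N c ⊆ Se M O μ h u N c := fun F ⟨s, hs, hF⟩ =>
    ⟨hF.1, hF.2.1, kI _ _ (max C1 0 * C2 ^ s) (by
      filter_upwards [pA, h1, h2] with x hx b1 b2
      refine ⟨mul_nonneg (normSq_nonneg _) (hx.2.2 N s c).le, ?_⟩
      have a2 := mono hx.2.1 b2 hs.1.le
      rw [neg_zero, Real.rpow_zero, sub_zero] at a2
      have q0 := (Real.rpow_pos_of_pos (pT x hx.1) ((1 : ℝ) / d - N)).le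
      have a3 : u N x ≤ max C1 0 * qt W h x ^ ((1 : ℝ) / d - N) * (C2 ^ s * bt h k B x ^ (-s)) :=
        (b1.trans (mul_le_mul_of_nonneg_right (le_max_left _ _) q0)).trans
          (le_mul_of_one_le_right (mul_nonneg (le_max_right _ _) q0) a2)
      have e := mul_le_mul_of_nonneg_left (div_le_div_of_nonneg_right a3
        (pow_pos (m.pos x hx.1) c).le) (normSq_nonneg (F x))
      unfold om
      calc _ ≤ _ := e
        _ = _ := by ring) hF.2.2⟩
  choose S hS using fun s => kS _ (mO N s c) (pA.mono fun x hx => (hx.2.2 N s c).le)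
  have mS : ∀ s F, F ∈ S s ↔ F ∈ L2 M O μ (om d k h W B N s c) := fun s F => by
    rw [← hS s, SetLike.mem_coe]
  obtain ⟨V, hV, mV⟩ := m.fd N c hN
  let T : Submodule ℂ (M.X → ℂ) :=
    { carrier := Id M O μ d k h W B N c
      add_mem' := fun ⟨s, hs, hF⟩ ⟨t, ht, hG⟩ =>
        ⟨min s t, ⟨lt_min hs.1 ht.1, (min_le_left _ _).trans hs.2⟩, (mS _ _).1 ((S _).add_mem
          ((mS _ _).2 (dn _ s (min_le_left s t) hF)) ((mS _ _).2 (dn _ t (min_le_right s t) hG)))⟩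
      zero_mem' := ⟨1, ⟨one_pos, le_rfl⟩, (mS _ _).1 (S _).zero_mem⟩
      smul_mem' := fun a _ ⟨s, hs, hF⟩ => ⟨s, hs, (mS _ _).1 ((S _).smul_mem a ((mS _ _).2 hF))⟩ }
  exact ⟨sub, T, Submodule.finiteDimensional_of_le (S₂ := V) fun F hF => mV (sub hF), rfl⟩

end Pool.Agent.Lib.KJ
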