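import Pool.Agent.Lib.KJ.Blue

/-! Project kj: the ideals are generated in a fixed degree. -/

open scoped Classical Topology ContDiff ENNReal
open Set MeasureTheory Complex Metric Filter

noncomputable section

namespace Pool.Agent.Lib.KJ

open Pool.Agent.Lib.SV (E nsq)
open Pool.Agent.Lib.HS32
open Pool.Agent.Lib.KH (HoK)

namespace IDV

theorem om_add {Y : Type} {r : ℕ} (d k : ℕ) (h W : Fin r → Y → ℂ) (B : Y → ℝ) (N : ℕ) (s : ℝ)
    (c j : ℕ) (x : Y) : om d k h W B N s (c + j) x = om d k h W B N s c x / nsq (h · x) ^ j := by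
  simp only [om, pow_add, div_div]

theorem le {a b c t p : ℝ} (h : a ≤ c * b) (ht : 0 ≤ t) (hp : 0 ≤ p) :
    t * (a / p) ≤ c * (t * (b / p)) := by
  rw [mul_left_comm, ← mul_div_assoc c]
  exact mul_le_mul_of_nonneg_left (div_le_div_of_nonneg_right h hp) ht

end IDV

open IDV in
theorem jIDV (hKIT : St_KIT) (hINT : St_INT) (hSKK : St_SKK) (hSND : St_SND) (hIDL : St_IDL) :
    St_IDV := by
  intro n r M O μ d k h W B u N c q hM hN hc F ⟨s, hs, hF, _, hI⟩
  obtain ⟨j, rfl⟩ : ∃ j, c = k + 1 + j := ⟨c - (k + 1), by omega⟩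
  obtain ⟨φ, C, hφ, hC⟩ := hSND n r M O μ d k h W B u N s hM hN hs
  obtain ⟨-, pos, -, h3⟩ := hIDL n r M O μ d k h W B u hM
  obtain ⟨-, -, -, k4, k5, k6, -⟩ := hKIT n M O hM.op
  obtain ⟨-, i2, i3, i4, -⟩ := hINT n M O μ hM.toMs
  obtain ⟨ms, iv⟩ := i4 (fun x => ENNReal.ofReal (B x ^ (-s)))
    (hM.mB.pow_const _).ennreal_ofReal
    (hM.B0.mono fun x hx => (ENNReal.ofReal_pos.2 (Real.rpow_pos_of_pos hx _)).ne')
  have e : ∀ G i, HoK M O G → Iv (μ.withDensity fun x => ENNReal.ofReal (B x ^ (-s)))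
      (fun x => normSq (G x) * wj h φ i x) =
      Iv μ fun x => normSq (G x) * (B x ^ (-s) * Real.exp (-φ x) / nsq (h · x) ^ i) := by
    intro G i hG
    rw [iv (fun x => normSq (G x) * wj h φ i x) (i2 ℝ _ ((continuous_normSq.comp_continuousOn (k4 G hG).1).mul
      ((k6 φ hφ).1.neg.rexp.div ((k5 _ h hM.hol).2.2.1.pow i)
        fun x hx => pow_ne_zero _ (hM.pos x hx).ne')))]
    refine lintegral_congr_ae (hM.B0.mono fun x hx => ?_)
    beta_reduce
    rw [← ENNReal.ofReal_mul (Real.rpow_nonneg hx.le _), mul_left_comm, mul_div_assoc]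
    rfl
  have sub : ∀ i, L2 M O (μ.withDensity fun x => ENNReal.ofReal (B x ^ (-s))) (wj h φ i) ⊆
      Id M O μ d k h W B N (k + 1 + i) := fun i G hG =>
    ⟨s / 2, ⟨half_pos hs.1, (half_le_self hs.1.le).trans hs.2⟩, hG.1, hG.2.1, by
      refine i3 _ _ C ?_ ((e G i hG.1).symm.trans_ne hG.2.2)
      filter_upwards [hC, hM.B0, hM.ae] with x h1 h2 h4
      have p := pow_nonneg (hM.pos x h4).le i
      exact ⟨mul_nonneg (normSq_nonneg _) (div_nonneg
        (mul_nonneg (Real.rpow_nonneg h2.le _) (Real.exp_pos _).le) p),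
        om_add d k h W B N _ _ i x ▸ le h1.2 (normSq_nonneg _) p⟩⟩
  obtain ⟨H, hH, he⟩ := hSKK n r M O _ h φ j q F ms (hM.hb s hs) hM.toFr hφ (by omega)
    (fun i => by
      obtain ⟨S, s1, s2⟩ := (h3 N (k + 1 + (j + i)) hN).2
      exact ⟨S, s1, s2 ▸ sub _⟩) hF (by
      rw [e F _ hF]
      refine i3 _ _ C ?_ hI
      filter_upwards [hC, pos] with x h1 h2
      refine ⟨mul_nonneg (normSq_nonneg _) (h2.2.2 _ _ _).le, ?_⟩
      rw [add_assoc (k + 1), om_add]
      exact le h1.1 (normSq_nonneg _) (pow_nonneg (hM.pos x h2.1).le _))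
  exact ⟨H, fun I => sub j (hH I), he⟩

end Pool.Agent.Lib.KJ
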