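import Pool.Agent.Lib.KJ.Blue

/-! Project kj, row ITR: the iteration of the division step. -/

open scoped Classical Topology ContDiff ENNReal ComplexOrder
open Set MeasureTheory Complex Metric Filter

noncomputable section

namespace Pool.Agent.Lib.KJ

open Pool.Agent.Lib.SV (E nsq)
open Pool.Agent.Lib.HS32
open Pool.Agent.Lib.KH (OnK SmK HoK HqB)

namespace ITR

section abs

variable {Y κ : Type} [MeasurableSpace Y] [Fintype κ] {ν : Measure Y}

theorem m_nsq {b : κ → Y → ℂ} (hb : ∀ i, AEMeasurable (b i) ν) :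
    AEMeasurable (fun x => nsq (b · x)) ν :=
  Finset.aemeasurable_fun_sum _ fun i _ => continuous_normSq.measurable.comp_aemeasurable (hb i)

theorem mon {f g : Y → ℝ} (h : ∀ᵐ x ∂ν, f x ≤ g x) : Iv ν f ≤ Iv ν g :=
  lintegral_mono_ae (h.mono fun _ hx => ENNReal.ofReal_le_ofReal hx)

theorem two {f g k : Y → ℝ} (mf : AEMeasurable f ν) (h : ∀ᵐ x ∂ν, k x ≤ 2 * f x + 2 * g x) :
    Iv ν k ≤ 2 * Iv ν f + 2 * Iv ν g := by
  have e : ∀ u : Y → ℝ, ∫⁻ x, ENNReal.ofReal (2 * u x) ∂ν = 2 * Iv ν u := fun u => by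
    simp only [ENNReal.ofReal_mul zero_le_two, ENNReal.ofReal_ofNat]
    exact lintegral_const_mul' _ _ (by norm_num)
  refine (mon h).trans ((lintegral_mono fun x => ENNReal.ofReal_add_le).trans_eq ?_)
  rw [lintegral_add_left' (mf.const_mul 2).ennreal_ofReal, e, e]

theorem i_nsq {u : κ → Y → ℂ} {w : Y → ℝ} (mu : ∀ a, AEMeasurable (u a) ν)
    (mw : AEMeasurable w ν) (w0 : ∀ x, 0 ≤ w x) :
    Iv ν (fun x => nsq (u · x) * w x) = ∑ a, Iv ν fun x => normSq (u a x) * w x := by
  refine Eq.trans (lintegral_congr fun x => ?_) (lintegral_finsetSum' _ fun a _ =>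
    ((continuous_normSq.measurable.comp_aemeasurable (mu a)).mul mw).ennreal_ofReal)
  simp only [nsq, Finset.sum_mul]
  exact ENNReal.ofReal_sum_of_nonneg fun a _ => mul_nonneg (normSq_nonneg _) (w0 x)

theorem nsq_add (a b : κ → ℂ) : nsq (fun i => a i + b i) ≤ 2 * nsq a + 2 * nsq b := by
  simp only [nsq, Finset.mul_sum, ← Finset.sum_add_distrib]
  refine Finset.sum_le_sum fun i _ => ?_
  simp only [normSq_apply, add_re, add_im]
  nlinarith [sq_nonneg ((a i).re - (b i).re), sq_nonneg ((a i).im - (b i).im)]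

theorem cs (a b : κ → ℂ) : normSq (∑ i, a i * b i) ≤ nsq a * nsq b := by
  simp only [nsq, normSq_eq_norm_sq]
  refine le_trans (pow_le_pow_left₀ (norm_nonneg _) ((norm_sum_le _ _).trans_eq ?_) 2)
    (Finset.sum_mul_sq_le_sq_mul_sq _ (fun i => ‖a i‖) fun i => ‖b i‖)
  simp only [norm_mul]

omit [MeasurableSpace Y] in
theorem wj_succ {r : ℕ} (h : Fin r → Y → ℂ) (φ : Y → ℝ) (j : ℕ) (c : ℝ) (x : Y) :
    c * wj h φ (j + 1) x = c / nsq (h · x) * wj h φ j x := by
  rw [wj, wj, pow_succ]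
  ring

omit [MeasurableSpace Y] in
theorem wj0 {r : ℕ} (h : Fin r → Y → ℂ) (φ : Y → ℝ) (j : ℕ) (x : Y) : 0 ≤ wj h φ j x :=
  div_nonneg (Real.exp_pos _).le (pow_nonneg (Finset.sum_nonneg fun _ _ => normSq_nonneg _) _)

end abs

variable {n r j : ℕ} {M : Mf n} {O : Set M.X} {ν : Measure M.X} {h : Fin r → M.X → ℂ}
  {φ : M.X → ℝ}

theorem am (hK : St_KIT) (hI : St_INT) (hν : Ms M O ν) {g : M.X → ℂ} (hg : HoK M O g) :
    AEMeasurable g ν := (hI n M O ν hν).2.1 ℂ g ((hK n M O hν.op).2.2.2.1 g hg).1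

theorem mw (hK : St_KIT) (hI : St_INT) (hν : Ms M O ν) (hh : Fr M O h) (hφ : PsK M O φ) :
    AEMeasurable (wj h φ j) ν :=
  ((hI n M O ν hν).2.1 ℝ φ ((hK n M O hν.op).2.2.2.2.2.1 φ hφ).1).neg.exp.div
    ((m_nsq fun a => am hK hI hν (hh.hol a)).pow_const j)

theorem step (hK : St_KIT) (hI : St_INT) (hO : St_ONE) (hν : Ms M O ν) (hq : HqB M O ν)
    (hh : Fr M O h) (hφ : PsK M O φ) (hj : 4 * r < j) {f : M.X → ℂ} (hf : HoK M O f) :
    ∃ F : Fin r → M.X → ℂ, (∀ a, HoK M O (F a)) ∧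
      Iv ν (fun x => nsq (F · x) * wj h φ j x) ≤
        4 * Iv ν (fun x => normSq (f x) * wj h φ (j + 1) x) ∧
      4 * Iv ν (fun x => normSq (f x - ∑ a, h a x * F a x) * wj h φ (j + 1) x) ≤
        Iv ν fun x => normSq (f x) * wj h φ (j + 1) x := by
  choose F f1 f2 using fun a => hO n r M O ν h φ j f a hν hq hh hφ (by omega) hf
  have mφ := mw (j := j) hK hI hν hh hφ
  have mh := m_nsq fun a => am hK hI hν (hh.hol a)
  have mG : ∀ a, AEMeasurable (fun x => f x * star (h a x) / nsq (h · x) - F a x) ν := fun a =>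
    (((am hK hI hν hf).mul (continuous_star.measurable.comp_aemeasurable
      (am hK hI hν (hh.hol a)))).div (measurable_ofReal.comp_aemeasurable mh)).sub
      (am hK hI hν (f1 a))
  have k0 : (0 : ℝ) < j := Nat.cast_pos.2 (by omega)
  have hk : (4 : ℝ) * r ≤ j := by exact_mod_cast hj.le
  set N := Iv ν fun x => normSq (f x) * wj h φ (j + 1) x with hN
  have key : 4 * Iv ν (fun x => nsq (fun a => f x * star (h a x) / nsq (h · x) - F a x) *
      wj h φ j x) ≤ N := by
    calc _ = 4 * ∑ a, Iv ν fun x =>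
          normSq (f x * star (h a x) / nsq (h · x) - F a x) * wj h φ j x := by
          rw [i_nsq mG mφ (wj0 h φ j)]
      _ ≤ 4 * ∑ a : Fin r, ENNReal.ofReal (j : ℝ)⁻¹ * N :=
          mul_le_mul_right (Finset.sum_le_sum fun a _ => f2 a) _
      _ = ENNReal.ofReal (4 * r * (j : ℝ)⁻¹) * N := by
          rw [Finset.sum_const, Finset.card_fin, nsmul_eq_mul, ENNReal.ofReal_mul (by positivity),
            ENNReal.ofReal_mul (by positivity), ENNReal.ofReal_natCast, ENNReal.ofReal_ofNat,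
            mul_assoc, mul_assoc]
      _ ≤ N := mul_le_of_le_one_left zero_le (ENNReal.ofReal_le_one.2
          ((mul_inv_le_iff₀ k0).2 (by rwa [one_mul])))
  refine ⟨F, f1, ?_, le_trans (mul_le_mul_right (mon (hν.ae.mono fun x hx => ?_)) _) key⟩
  · refine (two (g := fun x => normSq (f x) * wj h φ (j + 1) x) ((m_nsq mG).mul mφ)
      (hν.ae.mono fun x hx => ?_)).trans ?_
    · have e : nsq (fun a => f x * star (h a x) / nsq (h · x)) = normSq (f x) / nsq (h · x) := by
        have := (hh.pos x hx).ne'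
        conv_lhs => rw [nsq]
        simp only [map_div₀, map_mul, star_def, normSq_conj, normSq_ofReal, ← Finset.sum_div,
          ← Finset.mul_sum]
        rw [← nsq]
        field_simp
      have k := nsq_add (fun a => -(f x * star (h a x) / nsq (h · x) - F a x))
        fun a => f x * star (h a x) / nsq (h · x)
      rw [show ∀ u : Fin r → ℂ, nsq (fun a => -u a) = nsq u from fun u => by simp [nsq], e] at k
      simp only [neg_sub, sub_add_cancel] at k
      rw [wj_succ, Pi.mul_apply]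
      linarith [mul_le_mul_of_nonneg_right k (wj0 h φ j x)]
    · rw [show (4 : ℝ≥0∞) = 2 + 2 by norm_num, add_mul]
      exact add_le_add_left ((mul_le_mul_left (by norm_num) _).trans
        (key.trans (le_mul_of_one_le_left zero_le one_le_two))) _
  · rw [wj_succ]
    refine mul_le_mul_of_nonneg_right ((div_le_iff₀ (hh.pos x hx)).2 ?_) (wj0 h φ j x)
    have e : f x - ∑ a, h a x * F a x =
        ∑ a, (f x * star (h a x) / nsq (h · x) - F a x) * h a x := by
      have h1 : ((nsq (h · x) : ℝ) : ℂ) ≠ 0 := ofReal_ne_zero.2 (hh.pos x hx).ne'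
      have h2 : ∑ a, star (h a x) * h a x = ((nsq (h · x) : ℝ) : ℂ) := by
        simp only [nsq, ofReal_sum, normSq_eq_conj_mul_self, star_def]
      simp only [sub_mul, Finset.sum_sub_distrib, div_mul_eq_mul_div, mul_assoc,
        ← Finset.sum_div, ← Finset.mul_sum]
      rw [h2, mul_div_cancel_right₀ _ h1]
      simp only [mul_comm]
    rw [e]
    exact cs _ _

end ITR

open ITR

theorem jITR (hK : St_KIT) (hI : St_INT) (hO : St_ONE) : St_ITR := by
  intro n r M O ν h φ j i f hν hq hh hφ hj hf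
  obtain ⟨k1, k2, -, -, k5, -⟩ := hK n M O hν.op
  induction i generalizing f with
  | zero => exact ⟨0, fun a => k1 0, by simp [nsq, Iv], by simp⟩
  | succ i ih =>
    obtain ⟨F, f1, f2, f3⟩ := step hK hI hO hν hq hh hφ hj hf
    obtain ⟨G, g1, g2, g3⟩ := ih (fun x => f x - ∑ a, h a x * F a x) (k2 _ _ hf
      (k5 _ (fun a x => h a x * F a x) fun a => (k2 _ _ (hh.hol a) (f1 a)).2.2.1).1).2.1
    refine ⟨F + G, fun a => (k2 _ _ (f1 a) (g1 a)).1, ?_, ?_⟩
    · refine (two (g := fun x => nsq (G · x) * wj h φ j x)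
        ((m_nsq fun a => am hK hI hν (f1 a)).mul (mw (j := j) hK hI hν hh hφ))
        (ae_of_all _ fun x => ?_)).trans ?_
      · exact (mul_le_mul_of_nonneg_right (nsq_add (F · x) (G · x)) (wj0 h φ j x)).trans_eq
          (by rw [Pi.mul_apply]; ring)
      · rw [show (16 : ℝ≥0∞) = 2 * 4 + 2 * 4 by norm_num, add_mul, mul_assoc]
        refine add_le_add (mul_le_mul_right f2 _) (mul_le_mul_right (g2.trans ?_) _)
        rw [show (16 : ℝ≥0∞) = 4 * 4 by norm_num, mul_assoc]
        exact mul_le_mul_right f3 _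
    · rw [pow_succ', mul_assoc]
      refine le_trans (mul_le_mul_right (le_trans (le_of_eq ?_) g3) _) f3
      simp only [Pi.add_apply, mul_add, Finset.sum_add_distrib, sub_sub]

end Pool.Agent.Lib.KJ
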