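import Pool.Agent.Lib.KJ.Blue
import Pool.Agent.Lib.NV6.J_SGA
import Pool.Agent.Lib.NV6.J_FRM

/-! Project kj, row JJ: the theorem of the first block. -/

open scoped Classical
open Set Complex

noncomputable section

namespace Pool.Agent.Lib.KJ

open Pool.Agent.Lib.HS32 Pool.Agent.Lib.NV6
open Pool.Agent.Lib.NV6.J (pv Cb jSGA jFRM)

theorem jJJ (_hKIT : St_KIT) (hGEN : St_GEN) (hDEN : St_DEN) : St_JJ := by
  intro n r M O μ d k h W B u hM hR
  obtain ⟨c, m, C, m0, hC, hq, hs⟩ := hGEN n r M O μ d k h W B u hM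
  obtain ⟨e, Q, τ, hQ, hx⟩ := hDEN n r M O μ d k h W B u c m C hM hR m0 hC
  refine ⟨m, e, Q, hQ, fun r' ε q => ?_, fun j hj s h1 a l => ?_⟩
  · obtain ⟨m', s, hq⟩ := hq q
    have cb : ∀ {m : ℕ} {s : Fin m → M.X → ℂ} {f}, Cb O h q s f → Cb (Oq O h Q) h q s f :=
      fun ⟨R, h1, h2⟩ => ⟨R, h1, fun x h' => h2 x h'.1⟩
    refine ⟨m' * r,
      fun j y => s (finProdFinEquiv.symm j).1 y * h (finProdFinEquiv.symm j).2 y / τ y, ?_⟩
    exact jSGA jFRM M.X r m _ h W C (fun i => pv h (Q i)) τ q m' s r' _ ε finProdFinEquiv.symm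
      (fun x h' => ⟨(hx x h').1, (hM.hne x h'.1).2, (hx x h').2⟩)
      fun a => ⟨fun j => cb ((hq a).1 j), fun i => cb ((hq a).2 i)⟩
  · obtain ⟨R, r1, r2⟩ := hs j hj s h1 a l
    refine ⟨R, r1, fun x h' => mul_left_cancel₀ (hx x h').1 ?_⟩
    have := r2 x h'.1
    simp only [(hx x h').2] at this
    rw [Finset.mul_sum]
    refine Eq.trans (by ring) (this.trans (Finset.sum_congr rfl fun i _ => by ring))

end Pool.Agent.Lib.KJ
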