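import Pool.Agent.Lib.KJ.Blue

/-! Project kj, row LEV: the change of level. -/

open scoped Classical Topology ENNReal
open Set MeasureTheory Complex Filter

set_option linter.unusedVariables false

noncomputable section

namespace Pool.Agent.Lib.KJ

open Pool.Agent.Lib.SV (E nsq)
open Pool.Agent.Lib.HS32
open Pool.Agent.Lib.KH (HoK)
open Pool.Agent.Lib.NV6.J (qt)

namespace LEV

theorem le_nsq {r : ℕ} (v : Fin r → ℂ) (a : Fin r) : normSq (v a) ≤ nsq v :=
  Finset.single_le_sum (f := fun j => normSq (v j)) (fun _ _ => normSq_nonneg _) (Finset.mem_univ a)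

theorem lev {T : ℝ} (hT : 0 < T) (u : ℝ) (q : ℕ) :
    T ^ (u - ((1 : ℕ) : ℝ)) = T ^ (u - ((q + 1 : ℕ) : ℝ)) * T ^ q := by
  rw [← Real.rpow_natCast T q, ← Real.rpow_add hT]
  congr 1
  push_cast
  ring

variable {Y : Type} {r d k : ℕ} {h W : Fin r → Y → ℂ} {B : Y → ℝ} {x : Y}

theorem om_eq (hT : 0 < qt W h x) (hH : 0 < nsq (h · x)) (s : ℝ) (c q : ℕ) :
    om d k h W B 1 s c x = om d k h W B (q + 1) s (c + q) x * (qt W h x * nsq (h · x)) ^ q ∧
    om d k h W B 1 s (c + q) x * (nsq (h · x) / qt W h x) ^ q = om d k h W B (q + 1) s c x := by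
  unfold om
  rw [lev hT _ q, pow_add, mul_pow, div_pow]
  constructor <;> field_simp

theorem om_one (hT : 0 < qt W h x) (hH : 0 < nsq (h · x)) (s : ℝ) (c : ℕ) :
    qt W h x * nsq (h · x) * nsq (h · x) ^ c * om d k h W B 1 s (c + 1) x =
      qt W h x ^ ((1 : ℝ) / d) * bt h k B x ^ (-s) := by
  unfold om
  rw [Nat.cast_one, Real.rpow_sub_one hT.ne', pow_succ]
  field_simp

theorem qt_mul (hH : 0 < nsq (h · x)) : qt W h x * nsq (h · x) = nsq (W · x) :=
  div_mul_cancel₀ _ hH.ne'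

end LEV

open LEV in
theorem jLEV (hKIT : St_KIT) (hINT : St_INT) (hIDL : St_IDL) : St_LEV := by
  intro n r M O μ d k h W B u md c q
  obtain ⟨-, k4, -⟩ := hKIT n M O md.op
  obtain ⟨-, -, kI, -, kO, -⟩ := hINT n M O μ md.toMs
  obtain ⟨i0, i1, -⟩ := hIDL n r M O μ d k h W B u md
  have pw : ∀ F, HoK M O F → ∀ j : ℕ, HoK M O fun x => F x ^ j := fun F hF =>
    (k4 F F hF hF).2.2.2.1
  have ml : ∀ F G, HoK M O F → HoK M O G → HoK M O fun x => F x * G x :=
    fun F G hF hG => (k4 F G hF hG).2.2.1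
  refine ⟨fun a F hF => ?_, fun a F hF => ?_, ?_⟩
  · obtain ⟨s, hs, h1, h0, h2⟩ := hF
    refine ⟨s, hs, ml _ _ h1 (pw _ (md.hW a) q), fun x hx => by simp only [h0 x hx, zero_mul],
      kI _ _ 1 (i1.mono fun x hx => ⟨mul_nonneg (normSq_nonneg _) (hx.2.2 _ s c).le, ?_⟩) h2⟩
    rw [one_mul, (om_eq (i0 x hx.1) (md.pos x hx.1) s c q).1, qt_mul (md.pos x hx.1), map_mul,
      map_pow, mul_assoc, mul_comm (normSq (W a x) ^ q)]
    exact mul_le_mul_of_nonneg_left (mul_le_mul_of_nonneg_left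
      (pow_le_pow_left₀ (normSq_nonneg _) (le_nsq (W · x) a) q) (hx.2.2 _ s _).le)
      (normSq_nonneg _)
  · obtain ⟨s, hs, h1, h0, h2⟩ := hF
    obtain ⟨C, hC⟩ := md.r3
    refine ⟨s, hs, (k4 _ _ (ml _ _ h1 (pw _ (md.hol a) (2 * q))) (pw _ (md.hW a) q)).2.2.2.2
      fun x hx => pow_ne_zero _ ((md.hne x hx).2 a),
      fun x hx => by simp only [h0 x hx, zero_mul, zero_div],
      kI _ _ (C ^ q) (i1.mono fun x hx =>
        ⟨mul_nonneg (normSq_nonneg _) (hx.2.2 _ s c).le, ?_⟩) h2⟩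
    have hT := i0 x hx.1
    have hH := md.pos x hx.1
    have h3 : 0 < normSq (W a x) := normSq_pos.2 ((md.hne x hx.1).2 a)
    have h4 : normSq (h a x) ^ 2 / normSq (W a x) ≤ C * (nsq (h · x) / qt W h x) := by
      have h5 := hC x hx.1 a
      rw [← qt_mul (W := W) hH] at h5
      rw [← mul_div_assoc, div_le_div_iff₀ h3 hT]
      refine le_of_mul_le_mul_right ?_ hH
      linarith
    have h5 := pow_le_pow_left₀ (div_nonneg (sq_nonneg _) h3.le) h4 q
    rw [← (om_eq hT hH s c q).2, map_div₀, map_mul, map_pow, map_pow, pow_mul, mul_div_assoc,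
      ← div_pow]
    rw [mul_pow] at h5
    have h6 := mul_le_mul_of_nonneg_left h5
      (mul_nonneg (normSq_nonneg (F x)) (hx.2.2 1 s (c + q)).le)
    linarith
  · obtain ⟨x₀, hx₀⟩ := md.ne
    obtain ⟨a, -⟩ : ∃ a : Fin r, True := by
      by_contra h0
      have h1 := md.pos x₀ hx₀
      unfold nsq at h1
      rw [Finset.sum_eq_zero fun a _ => (h0 ⟨a, trivial⟩).elim] at h1
      exact lt_irrefl _ h1
    obtain ⟨s, hs, hi⟩ := md.int
    refine ⟨O.indicator fun x => W a x * h a x ^ c, ⟨s, hs, kO _ _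
      (ml _ _ (md.hW a) (pw _ (md.hol a) c)) (kI _ _ 1 (i1.mono fun x hx => ⟨mul_nonneg
        (Real.rpow_nonneg (i0 x hx.1).le _) (Real.rpow_nonneg hx.2.1.le _), ?_⟩) hi)⟩, x₀, hx₀, ?_⟩
    · have hH := md.pos x hx.1
      rw [one_mul, ← om_one (d := d) (k := k) (i0 x hx.1) hH s c, qt_mul hH, map_mul, map_pow]
      exact mul_le_mul_of_nonneg_right (mul_le_mul (le_nsq (W · x) a)
        (pow_le_pow_left₀ (normSq_nonneg _) (le_nsq (h · x) a) c)
        (pow_nonneg (normSq_nonneg _) _) ((normSq_nonneg _).trans (le_nsq (W · x) a)))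
        (hx.2.2 _ _ _).le
    · rw [indicator_of_mem hx₀]
      exact mul_ne_zero ((md.hne x₀ hx₀).2 a) (pow_ne_zero _ ((md.hne x₀ hx₀).1 a))

end Pool.Agent.Lib.KJ
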