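import Pool.Agent.Lib.KJ.Blue
import Pool.Agent.Lib.NV6.J_LOW
import Pool.Agent.Lib.NV6.J_FRM

/-! Project kj, row LOW. -/

open scoped Classical Topology ContDiff ENNReal ComplexOrder
open Set MeasureTheory Complex Metric Filter

set_option linter.unusedVariables false

noncomputable section

namespace Pool.Agent.Lib.KJ

open Pool.Agent.Lib.SV (E nsq nsq_nonneg)
open Pool.Agent.Lib.HS32 Pool.Agent.Lib.NV6
open Pool.Agent.Lib.KH (OnK SmK HoK HqB)
open Pool.Agent.Lib.NV6.J (mon pv Dv Cb qt jFRM)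
open Pool.Agent.Lib.NV6.J.LOWk

theorem jLOW (hKIT : St_KIT) (hINT : St_INT) (hSKK : St_SKK) : St_LOW := by
  intro n r M O μ d k h W B u N c m hN hc
  obtain ⟨-, k2, -, k4, k5, -, k7, -⟩ := hKIT n M O m.op
  obtain ⟨-, i2, -, i4, -⟩ := hINT n M O μ m.toMs
  obtain ⟨-, f2, -⟩ := jFRM M.X r O h
  obtain ⟨ρ, hρ, hq, ⟨c₀, hc₀, hlo⟩, hfin⟩ := m.zo N hN
  have hu := (m.u0 N).2
  obtain ⟨ms, iv⟩ := i4 ρ hρ (by
    filter_upwards [hlo, hu] with x h1 h2
    exact ((ENNReal.ofReal_pos.2 (mul_pos hc₀ h2)).trans_le h1).ne')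
  obtain ⟨-, -, j3, -⟩ := hINT n M O _ ms
  have cn : ContinuousOn (fun x => nsq (h · x)) O := (k5 _ h m.hol).2.2.1
  have sub : ∀ j, L2 M O (μ.withDensity ρ) (wj h (fun _ => 0) j) ⊆ Se M O μ h u N j := by
    intro j F hF
    refine ⟨hF.1, hF.2.1, ?_⟩
    have h1 := hF.2.2
    rw [iv _ (i2 ℝ (fun x => normSq (F x) * wj h (fun _ => 0) j x) ((continuous_normSq.comp_continuousOn (k4 F hF.1).1).mul
      (continuousOn_const.div (cn.pow j) fun x hx => (pow_pos (m.pos x hx) j).ne')))] at h1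
    have h2 : ENNReal.ofReal c₀ * Iv μ (fun x => normSq (F x) * (u N x / nsq (h · x) ^ j)) ≤
        ∫⁻ x, ρ x * ENNReal.ofReal (normSq (F x) * wj h (fun _ => 0) j x) ∂μ := by
      rw [Iv, ← lintegral_const_mul' _ _ ENNReal.ofReal_ne_top]
      refine lintegral_mono_ae ?_
      filter_upwards [hlo, hu] with x a1 a2
      refine le_trans (le_of_eq ?_) (mul_le_mul_left a1 _)
      rw [← ENNReal.ofReal_mul hc₀.le, ← ENNReal.ofReal_mul (mul_pos hc₀ a2).le]
      refine congrArg _ ?_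
      simp only [wj, neg_zero, Real.exp_zero]
      ring
    exact fun e => h1 (top_le_iff.1 ((by
      rw [e, ENNReal.mul_top (ENNReal.ofReal_pos.2 hc₀).ne'] : ⊤ = _).trans_le h2))
  have e : ∀ a x, normSq (W a x ^ N * h a x ^ c) = normSq (W a x) ^ N * normSq (h a x) ^ c :=
    fun a x => by simp only [map_mul, map_pow]
  have dv : ∀ a, ∃ (m : ℕ) (s : Fin m → M.X → ℂ),
      (∀ j, s j ∈ L2 M O (μ.withDensity ρ) (wj h (fun _ => 0) c)) ∧ ∀ x ∈ O,
        normSq (W a x ^ N * h a x ^ c) ≤ nsq (h · x) ^ N * nsq (s · x) := fun a => by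
    have h1 := (k2 _ _ (m.hW a) (m.hW a)).2.2.2.1 N
    have h2 := (k2 _ _ (m.hol a) (m.hol a)).2.2.2.1 c
    refine f2 N _ (fun x => W a x ^ N * h a x ^ c) (hSKK n r M O _ h _ c N _ ms hq m.toFr (k7 0) hc
      (fun i => ?_) (k2 _ _ h1 h2).2.2.1 (j3 _ _ 1 ?_ hfin))
    · obtain ⟨V, v1, v2⟩ := m.fd N (c + i) hN
      exact ⟨V, v1, (sub _).trans v2⟩
    · filter_upwards [ms.ae] with x hx
      have p := m.pos x hx
      refine ⟨pow_nonneg (div_nonneg (nsq_nonneg _) p.le) _, ?_⟩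
      simp only [wj, neg_zero, Real.exp_zero]
      rw [e, qt, one_mul, div_pow, mul_one_div, div_le_div_iff₀ (pow_pos p _) (pow_pos p _),
        pow_add, ← mul_assoc]
      refine mul_le_mul_of_nonneg_right ?_ (pow_nonneg p.le _)
      exact mul_le_mul (pow_le_pow_left₀ (normSq_nonneg _) (le_nsq (W · x) a) N)
        (pow_le_pow_left₀ (normSq_nonneg _) (le_nsq (h · x) a) c) (pow_nonneg (normSq_nonneg _) _)
        (pow_nonneg (nsq_nonneg _) _)
  choose ν s s1 s2 using dv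
  choose D hD using fun p : Σ a, Fin (ν a) => m.r2 N c hN _ (sub c (s1 p.1 p.2))
  obtain ⟨C, hC3⟩ := m.r3
  let ε := (Fintype.equivFin (Σ a, Fin (ν a))).symm
  have sm : ∀ x, nsq (fun i => s (ε i).1 (ε i).2 x) =
      ∑ p : Σ a, Fin (ν a), normSq (s p.1 p.2 x) := fun x =>
    ε.sum_comp fun p => normSq (s p.1 p.2 x)
  have b0 : 0 ≤ ∑ p, |D p| := Finset.sum_nonneg fun _ _ => abs_nonneg _
  have up : ∀ a x, nsq (s a · x) ≤ nsq (fun i => s (ε i).1 (ε i).2 x) := fun a x => by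
    rw [sm, Fintype.sum_sigma]
    exact Finset.single_le_sum (f := fun a => nsq (s a · x)) (fun _ _ => nsq_nonneg _)
      (Finset.mem_univ a)
  refine ⟨_, fun i => s (ε i).1 (ε i).2, (|C| * r ^ 2) ^ N * r ^ c + (∑ p, |D p| + 1),
    by positivity, ⟨fun i => (s1 _ _).1, fun x hx => ?_⟩, ?_⟩
  · obtain ⟨a, -⟩ := ex_max _ (m.pos x hx)
    have h1 : 0 < normSq (W a x ^ N * h a x ^ c) := normSq_pos.2
      (mul_ne_zero (pow_ne_zero _ ((m.hne x hx).2 a)) (pow_ne_zero _ ((m.hne x hx).1 a)))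
    exact (pos_of_mul_pos_right (h1.trans_le (s2 a x hx)) (pow_nonneg (nsq_nonneg _) _)).trans_le
      (up a x)
  filter_upwards [m.ae, ae_all_iff.2 hD] with x hx hB
  have p := m.pos x hx
  have t0 : 0 ≤ qt W h x ^ N * nsq (h · x) ^ c :=
    mul_nonneg (pow_nonneg (div_nonneg (nsq_nonneg _) p.le) _) (pow_nonneg p.le _)
  constructor
  · obtain ⟨a, ha⟩ := ex_max _ p
    refine (low N c (nsq_nonneg _) p (normSq_nonneg _) (Nat.cast_nonneg r) ha (hC3 x hx a)
      (((e a x).symm.trans_le (s2 a x hx)).trans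
        (mul_le_mul_of_nonneg_left (up a x) (pow_nonneg p.le _)))).trans ?_
    exact mul_le_mul_of_nonneg_right (le_add_of_nonneg_right (by positivity)) (nsq_nonneg _)
  · rw [sm, Finset.sum_mul, mul_assoc]
    refine (Finset.sum_le_sum fun q _ => (hB q).trans ((mul_assoc _ _ _).trans_le
      (mul_le_mul_of_nonneg_right (le_abs_self _) t0))).trans ?_
    rw [← Finset.sum_mul]
    refine mul_le_mul_of_nonneg_right ?_ t0
    have : 0 ≤ (|C| * r ^ 2) ^ N * (r : ℝ) ^ c := by positivity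
    linarith

end Pool.Agent.Lib.KJ
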