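import Pool.Agent.Lib.KJ.Blue
import Pool.Agent.Lib.NV2.B_DB

/-! Project kj: one application of the theorem of Hörmander. -/

open scoped Classical Topology ContDiff ENNReal ComplexOrder
open Set MeasureTheory Complex Filter

noncomputable section

namespace Pool.Agent.Lib.KJ

open Pool.Agent.Lib.SV (E nsq nsq_nonneg)
open Pool.Agent.Lib.HS32 Pool.Agent.Lib.EXS.K32
open Pool.Agent.Lib.KH (OnK SmK HoK HqB)
open Pool.Agent.Lib.NV2 (ip prp)
open Pool.Agent.Lib.ZL (db)

namespace ONE

theorem loc {n r : ℕ} {T : E n → Fin r → ℂ} {f : E n → ℂ} {φ : E n → ℝ} {z : E n} {κ : ℝ}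
    (a : Fin r) (k0 : 0 < κ) (hT : HolN T z) (p0 : 0 < nsq (T z)) (hf : HolN f z)
    (c1 : ContDiffAt ℝ ∞ φ z) (c2 : ∀ v, 0 ≤ lv φ z v) :
    ContDiffAt ℝ ∞ (fun w => φ w + κ * Real.log (nsq (T w))) z ∧
    ContDiffAt ℝ ∞ (fun w => f w * star (T w a) / nsq (T w)) z ∧ ∀ v,
      0 ≤ lv (fun w => φ w + κ * Real.log (nsq (T w))) z v ∧
      normSq (db (fun w => f w * star (T w a) / nsq (T w)) z v) ≤
        normSq (f z) / (κ * nsq (T z)) * lv (fun w => φ w + κ * Real.log (nsq (T w))) z v := by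
  have e : ∀ (c : ℂ) (t : Fin r → ℂ), ip (Pi.single a c) t = c * star (t a) := fun c t => by
    rw [ip, Finset.sum_eq_single a (fun b _ hb => by rw [Pi.single_eq_of_ne hb, zero_mul])
      fun hb => absurd (Finset.mem_univ a) hb, Pi.single_eq_same]
    rfl
  have T0 : T z ≠ 0 := fun e => p0.ne' (by simp [nsq, e])
  have hY : HolN (fun w => (Pi.single a (f w) : Fin r → ℂ)) z :=
    hf.mono fun w hw => differentiableAt_pi.2 fun b => by
      by_cases hb : b = a
      · subst hb
        simpa only [Pi.single_eq_same] using hw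
      · simp only [Pi.single_eq_of_ne hb, differentiableAt_const]
  have k := fun v => NV2.bDB n r _ _ z v hT hY T0
  simp only [e] at k
  refine ⟨c1.add (contDiffAt_const.mul (k 0).2.2.1), (k 0).1, fun v => ?_⟩
  obtain ⟨-, d2, d3, d4⟩ := k v
  have p1 := nsq_nonneg (prp (T z) (fderiv ℂ T z v))
  have h1 : normSq (prp (T z) (fderiv ℂ T z v) a) ≤ nsq (prp (T z) (fderiv ℂ T z v)) :=
    Finset.single_le_sum (f := fun j => normSq (prp (T z) (fderiv ℂ T z v) j))
      (fun j _ => normSq_nonneg _) (Finset.mem_univ a)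
  have f0 := normSq_nonneg (f z)
  have := c2 v
  rw [lv_add c1 (contDiffAt_const.mul d3), lv_mul d3, d4, d2, map_div₀, normSq_ofReal, map_mul,
    star_def, normSq_conj]
  refine ⟨by positivity, ?_⟩
  rw [mul_add, show normSq (f z) / (κ * nsq (T z)) * (κ * (nsq (prp (T z) (fderiv ℂ T z v)) /
    nsq (T z))) = normSq (f z) * nsq (prp (T z) (fderiv ℂ T z v)) / (nsq (T z) * nsq (T z)) by
      field_simp]
  exact le_add_of_nonneg_of_le (by positivity) (by gcongr)

end ONE

theorem bONE (hKIT : St_KIT) (hINT : St_INT) : St_ONE := by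
  intro n r M O ν h φ j f a hν hq hh hφ j0 hf
  have k0 : (0 : ℝ) < j := Nat.cast_pos.2 j0
  obtain ⟨k1, -, -, k4, k5, -⟩ := hKIT n M O hν.op
  by_cases fin : Iv ν (fun x => normSq (f x) * wj h φ (j + 1) x) = ⊤
  · refine ⟨_, k1 0, ?_⟩
    rw [fin, ENNReal.mul_top (ENNReal.ofReal_pos.2 (inv_pos.2 k0)).ne']
    exact le_top
  have lc := fun (e : M.Ch) (he : e ∈ M.C) (z : E n) (hz : z ∈ e.target) (ho : e.symm z ∈ O) =>
    ONE.loc (T := fun w b => h b (e.symm w)) (f := f ∘ e.symm) (φ := φ ∘ e.symm) (z := z) a k0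
      ((eventually_all.2 fun b => hh.hol b e he z hz ho).mono fun w hw =>
        differentiableAt_pi.2 fun b => hw b) (hh.pos _ ho) (hf e he z hz ho) (hφ.1 e he z hz ho)
      fun v => (Complex.nonneg_iff.1 ((hφ.2 e he z hz ho).dotProduct_mulVec_nonneg v)).1
  have ew : ∀ x ∈ O, Real.exp (-(φ x + j * Real.log (nsq (h · x)))) = wj h φ j x := fun x hx => by
    rw [neg_add, Real.exp_add, Real.exp_neg (_ * _), Real.exp_nat_mul, Real.exp_log (hh.pos x hx),
      wj, div_eq_mul_inv]
  have es : ∀ x, wj h φ (j + 1) x = wj h φ j x / nsq (h · x) := fun x => by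
    rw [wj, wj, pow_succ, div_div]
  have am := (hINT n M O ν hν).2.1 ℝ
  obtain ⟨F, f1, f2⟩ := hq (fun x => φ x + j * Real.log (nsq (h · x)))
    (fun x => normSq (f x) / (j * nsq (h · x))) (fun x => f x * star (h a x) / nsq (h · x))
    ((am _ (continuous_normSq.comp_continuousOn (k4 f hf).1)).div
      ((am _ (k5 _ h hh.hol).2.2.1).const_mul _))
    ⟨fun e he z hz ho => (lc e he z hz ho).1, fun e he z hz ho => (lc e he z hz ho).2.1,
      fun x hx => div_nonneg (normSq_nonneg _) (mul_pos k0 (hh.pos x hx)).le,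
      fun e he z hz ho => psd_of_lv (lc e he z hz ho).1 fun v => ((lc e he z hz ho).2.2 v).1,
      fun e he z hz ho v => ((lc e he z hz ho).2.2 v).2⟩
    (ne_top_of_le_ne_top fin (lintegral_mono_ae (hν.ae.mono fun x hx =>
      ENNReal.ofReal_le_ofReal (by
        have p := hh.pos x hx
        have h1 : normSq (h a x) ≤ nsq (h · x) := Finset.single_le_sum
          (f := fun b => normSq (h b x)) (fun _ _ => normSq_nonneg _) (Finset.mem_univ a)
        have f0 := normSq_nonneg (f x)
        beta_reduce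
        rw [es, ← ew x hx, map_div₀, normSq_ofReal, map_mul, star_def, normSq_conj,
          mul_div_left_comm (normSq (f x)), mul_comm]
        refine mul_le_mul_of_nonneg_left ?_ (Real.exp_pos _).le
        rw [← div_div, mul_div_assoc]
        gcongr
        exact mul_le_of_le_one_right f0 ((div_le_one p).2 h1)))))
  refine ⟨F, f1, le_trans (le_of_eq ?_) (f2.trans_eq ?_)⟩
  · exact lintegral_congr_ae (hν.ae.mono fun x hx => by simp only [ew x hx])
  · rw [Iv, ← lintegral_const_mul' _ _ ENNReal.ofReal_ne_top]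
    refine lintegral_congr_ae (hν.ae.mono fun x hx => ?_)
    simp only [ew x hx, es, ← ENNReal.ofReal_mul (inv_pos.2 k0).le]
    exact congrArg _ (by ring)

end Pool.Agent.Lib.KJ
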