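import Pool.Agent.Lib.KJ.Blue
import Pool.Agent.Lib.NV6.C_SEC
import Pool.Agent.Lib.NV6.C_SPH
import Pool.Agent.Lib.NV6.C_HOM

/-! Project kj, row PUL. -/

open scoped Classical Topology ContDiff ENNReal
open Set MeasureTheory Complex Metric Filter

set_option linter.unusedSectionVars false

noncomputable section

namespace Pool.Agent.Lib.KJ

open Pool.Agent.Lib.SV (E nsq nsq_nonneg)
open Pool.Agent.Lib.HS32 Pool.Agent.Lib.NV6
open Pool.Agent.Lib.KH (OnK SmK HoK)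

namespace PUL

section un

variable {σ : Type} [Fintype σ]

theorem pos [Nonempty σ] {v : σ → ℂ} (h : ∀ i, v i ≠ 0) : 0 < nsq v :=
  Finset.sum_pos (fun i _ => normSq_pos.2 (h i)) Finset.univ_nonempty

/-- The unit vector. -/
def un (v : σ → ℂ) : σ → ℂ := ((√(nsq v))⁻¹ : ℝ) • v

theorem un_one {v : σ → ℂ} (h : 0 < nsq v) : nsq (un v) = 1 := by
  have e : nsq (un v) = (√(nsq v))⁻¹ * (√(nsq v))⁻¹ * nsq v := by
    simp only [nsq, un, Pi.smul_apply, real_smul, map_mul, normSq_ofReal, Finset.mul_sum]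
  rw [e, ← mul_inv, Real.mul_self_sqrt h.le, inv_mul_cancel₀ h.ne']

theorem un_eq {v : σ → ℂ} (h : 0 < nsq v) : v = (√(nsq v) : ℂ) • un v := by
  funext i
  have : (√(nsq v) : ℂ) ≠ 0 := ofReal_ne_zero.2 (Real.sqrt_pos.2 h).ne'
  simp only [un, Pi.smul_apply, real_smul, smul_eq_mul, ofReal_inv]
  rw [mul_inv_cancel_left₀ this]

theorem un_ct {Y : Type} [TopologicalSpace Y] {O : Set Y} {f : σ → Y → ℂ}
    (h : ∀ i, ContinuousOn (f i) O) (h0 : ∀ x ∈ O, 0 < nsq (f · x)) :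
    ContinuousOn (fun x => un (f · x)) O :=
  ((continuousOn_finsetSum _ fun i _ => continuous_normSq.comp_continuousOn (h i)).sqrt.inv₀
    fun x hx => (Real.sqrt_pos.2 (h0 x hx)).ne').smul (continuousOn_pi.2 h)

end un

variable {n : ℕ} {M : Mf n} {I J : Type} [Fintype I] [Fintype J] {O : Set M.X}
  {Z : Set (I × J → ℂ)} {a : I → M.X → ℂ} {b : J → M.X → ℂ} {p : M.X → Sph Z}

theorem ex (hK : St_KIT) (hO : IsOpen O) (hn : O.Nonempty) [Nonempty I] [Nonempty J]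
    (hZ : Cone Z) (ha : ∀ i, HoK M O (a i)) (hb : ∀ j, HoK M O (b j))
    (ne : ∀ x ∈ O, (∀ i, a i x ≠ 0) ∧ ∀ j, b j x ≠ 0)
    (hs : ∀ x ∈ O, sg ((a · x), (b · x)) ∈ Z) : ∃ p, Mq M O Z a b p := by
  obtain ⟨x₀, h₀⟩ := hn
  have pa : ∀ x ∈ O, 0 < nsq (a · x) := fun x hx => pos (ne x hx).1
  have pb : ∀ x ∈ O, 0 < nsq (b · x) := fun x hx => pos (ne x hx).2
  have mem : ∀ x ∈ O, (un (a · x), un (b · x)) ∈ Sph Z := fun x hx => by
    refine ⟨?_, un_one (pa x hx), un_one (pb x hx)⟩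
    have := hZ.smul ((((√(nsq (a · x)))⁻¹ : ℝ) : ℂ) * ((√(nsq (b · x)))⁻¹ : ℝ)) _ (hs x hx)
    refine Set.mem_of_eq_of_mem (funext fun p => ?_) this
    simp only [sg, un, Pi.smul_apply, real_smul, smul_eq_mul]
    ring
  have cg : ∀ {f : M.X → ℂ}, HoK M O f → ContinuousOn f O :=
    fun h => ((hK n M O hO).2.2.2.1 _ h).1
  refine ⟨fun x => if hx : x ∈ O then ⟨_, mem x hx⟩ else ⟨_, mem x₀ h₀⟩, hO, hZ, ha, hb, ne,
    fun x hx => ⟨pa x hx, pb x hx, ?_, ?_⟩, ?_⟩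
  · simp only [dif_pos hx]
    exact un_eq (pa x hx)
  · simp only [dif_pos hx]
    exact un_eq (pb x hx)
  · rw [Topology.IsInducing.subtypeVal.continuousOn_iff]
    refine ((un_ct (fun i => cg (ha i)) pa).prodMk (un_ct (fun i => cg (hb i)) pb)).congr
      fun x hx => ?_
    simp only [Function.comp, dif_pos hx]

theorem sec (hK : St_KIT) (h : Mq M O Z a b p) {q e : ℕ} {s : Fn I J} (hs : Sec Z q e s) :
    HoK M O (fun x => s ((a · x), (b · x))) ∧ ∀ x ∈ O,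
      s ((a · x), (b · x)) = (Real.exp
        ((q * Real.log (tq a b x) + e * Real.log (hp a b x)) / 2) : ℝ) * s (p x).1 ∧
      normSq (s ((a · x), (b · x))) = normSq (s (p x).1) *
        Real.exp (q * Real.log (tq a b x) + e * Real.log (hp a b x)) := by
  have hS := cSEC cHOM
  have hH := cSPH cHOM
  obtain ⟨-, k2, k3, -, k5, -⟩ := hK n M O h.op
  have k : ∀ x ∈ O, ((a · x), (b · x)) ∈ Bc Z ∧ s ((a · x), (b · x)) * (√(nsq (b · x)) : ℂ) ^ q =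
      (√(nsq (a · x)) : ℂ) ^ (e + q) * (√(nsq (b · x)) : ℂ) ^ e * s (p x).1 := fun x hx => by
    obtain ⟨h1, h2, h3, h4⟩ := h.eq x hx
    have := hS.hom h.cone hs _ (hH.bc (p x)).1 _ _ (ofReal_ne_zero.2 (Real.sqrt_pos.2 h1).ne')
      (ofReal_ne_zero.2 (Real.sqrt_pos.2 h2).ne')
    rwa [← h3, ← h4] at this
  refine ⟨fun d hd z hz hw => ?_, fun x hx => ?_⟩
  · obtain ⟨i, j, -⟩ := (hH.bc (p (d.symm z))).2.2.1
    obtain ⟨k', A, -, hA⟩ := hs i j
    have m := fun i j => (k2 _ _ (h.ha i) (h.hb j)).2.2.1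
    have ne : ∀ x ∈ O, b j x ^ (2 * q) * (a i x * b j x) ^ k' ≠ 0 := fun x hx =>
      mul_ne_zero (pow_ne_zero _ ((h.ne x hx).2 j)) (pow_ne_zero _
        (mul_ne_zero ((h.ne x hx).1 i) ((h.ne x hx).2 j)))
    exact k3 _ _ ((k2 _ _ ((k5 _ (fun (β : I × J) x => a β.1 x * b β.2 x)
      fun β => m β.1 β.2).2.2.2.1 A) (k2 _ _ ((k2 _ _ (h.hb j) (h.hb j)).2.2.2.1 (2 * q))
        ((k2 _ _ (m i j) (m i j)).2.2.2.1 k')).2.2.1).2.2.2.2 ne) (fun x hx =>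
          eq_div_of_mul_eq (ne x hx) ((mul_assoc _ _ _).symm.trans (hA _ (k x hx).1))) d hd z hz hw
  · obtain ⟨h1, h2, -⟩ := h.eq x hx
    have sq : ∀ {t : ℝ}, 0 < t → √t = Real.exp (Real.log t / 2) := fun h => by
      rw [Real.sqrt_eq_rpow, Real.rpow_def_of_pos h, mul_one_div]
    have h6 := (k x hx).2
    rw [← eq_div_iff (pow_ne_zero _ (ofReal_ne_zero.2 (Real.sqrt_pos.2 h2).ne')),
      mul_div_right_comm, sq h1, sq h2, ← ofReal_pow, ← ofReal_pow, ← ofReal_pow, ← ofReal_mul,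
      ← ofReal_div, ← Real.exp_nat_mul, ← Real.exp_nat_mul, ← Real.exp_nat_mul, ← Real.exp_add,
      ← Real.exp_sub] at h6
    have h7 : s ((a · x), (b · x)) = (Real.exp
        ((q * Real.log (tq a b x) + e * Real.log (hp a b x)) / 2) : ℝ) * s (p x).1 := by
      rw [h6, tq, hp, Real.log_div h1.ne' h2.ne', Real.log_mul h1.ne' h2.ne']
      exact congrArg (fun t => ((Real.exp t : ℝ) : ℂ) * _) (by push_cast; ring)
    exact ⟨h7, by rw [h7, map_mul, normSq_ofReal, ← Real.exp_add, add_halves, mul_comm]⟩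

theorem adm (hK : St_KIT) (h : Mq M O Z a b p) {y c : ℝ} {β : Sph Z → ℝ} (hβ : Adm Z y c β) :
    PsK M O fun x => β (p x) + (y * Real.log (tq a b x) + c * Real.log (hp a b x)) := by
  obtain ⟨r, t, q, e, N, h1, rfl, h3, h4⟩ := hβ
  choose m S s1 s2 using fun l => (h1 l).2.1
  obtain ⟨-, -, -, -, k5, k6, -, k8⟩ := hK n M O h.op
  have k : ∀ l, ∀ x ∈ O, nsq (fun i => S l i ((a · x), (b · x))) = N l (p x) * Real.exp
      (q l * Real.log (tq a b x) + e l * Real.log (hp a b x)) := fun l x hx => by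
    rw [s2, Finset.sum_mul]
    exact Finset.sum_congr rfl fun i _ => ((sec hK h (s1 l i)).2 x hx).2
  refine (k6 _ ((k6 _ (k8 _ _ fun l => (k6 _ ((k5 _ (fun i x => S l i ((a · x), (b · x)))
    fun i => (sec hK h (s1 l i)).1).2.2.2.2 fun x hx => by
      rw [k l x hx]; exact mul_pos ((h1 l).2.2 _) (Real.exp_pos _))).2.2.1 _ (h1 l).1)).2.2.2.1 _
    ((k6 _ ((k6 _ ((k5 _ a h.ha).2.2.2.2 fun x hx => (h.eq x hx).1)).2.2.2.1 _
      ((k5 _ b h.hb).2.2.2.2 fun x hx => (h.eq x hx).2.1))).2.2.1 _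
        (sub_nonneg.2 h3)))).2.2.2.2 _ fun x hx => ?_
  have e1 : ∀ l, Real.log (nsq fun i => S l i ((a · x), (b · x))) = _ := fun l => by
    rw [k l x hx, Real.log_mul ((h1 l).2.2 _).ne' (Real.exp_pos _).ne', Real.log_exp]
  simp only [e1, ← Real.log_mul (h.eq x hx).1.ne' (h.eq x hx).2.1.ne', h4, mul_add, hp,
    Finset.sum_add_distrib, ← mul_assoc, ← Finset.sum_mul]
  ring

end PUL

theorem bPUL (hKIT : St_KIT) : St_PUL := fun _ _ _ _ _ _ _ _ _ _ =>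
  ⟨fun hO hn _ _ hZ ha hb ne hs => PUL.ex hKIT hO hn hZ ha hb ne hs,
    fun _ h => ⟨fun _ _ _ hs => PUL.sec hKIT h hs, fun _ _ _ hβ => PUL.adm hKIT h hβ⟩⟩

end Pool.Agent.Lib.KJ
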