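import Pool.Agent.Lib.KJ.Blue
import Pool.Agent.Lib.S5.T9

/-! Row SG: the sections on a nef model. -/

open scoped Classical Topology ContDiff ENNReal ComplexOrder
open Set MeasureTheory Complex Metric Filter

noncomputable section

namespace Pool.Agent.Lib.KJ

open Pool.Agent.Lib.SV (E nsq)
open Pool.Agent.Lib.HS32 Pool.Agent.Lib.NV6
open Pool.Agent.Lib.KH (OnK SmK HoK HqB)
open Pool.Agent.Lib.S5 (GoodV Vs st_THV)

theorem jSG (hKIT : St_KIT) (hINT : St_INT) (hPUL : St_PUL) (hGDV : St_GDV) : St_SG := by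
  intro n M O ν I J _ _ Z a b p x θ mdl mp dq fd sec
  obtain ⟨m, gd, vs, c, -, c1, li⟩ := hGDV n M O ν I J Z a b p x θ mp dq fd sec
  obtain ⟨N, N0, r, S, s1, s2, s3⟩ := st_THV I J Z 1 x θ m 1 _ mdl dq.x0 dq.θ0 vs gd
  obtain ⟨pu, pv⟩ := (hPUL n M O I J Z a b).2 p mp
  have := st_SPH.cpt mp.cone
  obtain ⟨f, hf⟩ : ∃ f : Sph Z → ℝ, ∀ v, ∑ l, normSq (S l v.1) = f v := ⟨_, fun _ => rfl⟩
  have cf : Continuous f := (funext hf : _ = f) ▸ continuous_finsetSum _ fun l _ =>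
    continuous_normSq.comp (st_SPH.cont (s1 l))
  have f0 : ∀ v, 0 ≤ f v := fun v => hf v ▸ Finset.sum_nonneg fun _ _ => normSq_nonneg _
  simp only [hf] at s2 s3
  have pT : ∀ y ∈ O, 0 < tq a b y ∧ 0 < hp a b y := fun y hy =>
    ⟨div_pos (mp.eq y hy).1 (mp.eq y hy).2.1, mul_pos (mp.eq y hy).1 (mp.eq y hy).2.1⟩
  have eσ : ∀ y ∈ O, nsq (fun l => S l ((a · y), (b · y))) = f (p y) * tq a b y ^ N :=
    fun y hy => by
    rw [← hf, Finset.sum_mul]
    refine Finset.sum_congr rfl fun l _ => ?_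
    beta_reduce
    rw [((pu N 0 (S l) (s1 l)).2 y hy).2, Nat.cast_zero, zero_mul, add_zero, Real.exp_nat_mul,
      Real.exp_log (pT y hy).1]
  obtain ⟨-, -, -, -, k5, -⟩ := hKIT n M O mp.op
  have ca := (k5 I a mp.ha).2.2.1
  have cb := (k5 J b mp.hb).2.2.1
  have cT : ContinuousOn (tq a b) O := ca.div cb fun y hy => (mp.eq y hy).2.1.ne'
  have cH : ContinuousOn (hp a b) O := ca.mul cb
  have cρ : ContinuousOn (fun y => tq a b y ^ x * hp a b y ^ (-θ)) O :=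
    (cT.rpow_const fun y hy => Or.inl (pT y hy).1.ne').mul
      (cH.rpow_const fun y hy => Or.inl (pT y hy).2.ne')
  have pρ : ∀ y ∈ O, 0 < tq a b y ^ x * hp a b y ^ (-θ) := fun y hy =>
    mul_pos (Real.rpow_pos_of_pos (pT y hy).1 _) (Real.rpow_pos_of_pos (pT y hy).2 _)
  obtain ⟨-, i2, -⟩ := hINT n M O ν dq.toMs
  refine ⟨N, r, fun l y => S l ((a · y), (b · y)), dq, N0, pT, fun l => (pu N 0 (S l) (s1 l)).1,
    ?_, ?_, fun t => ?_, fun w w0 c' c0 => ?_⟩
  · obtain ⟨C, hC⟩ := (isCompact_range cf).bddAbove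
    exact ⟨C, fun y hy => (eσ y hy).trans_le
      (mul_le_mul_of_nonneg_right (hC ⟨p y, rfl⟩) (pow_pos (pT y hy).1 _).le)⟩
  · have hT : MeasurableSet {v | ¬ 0 < f v} :=
      (measurableSet_lt measurable_const cf.measurable).compl
    have mi : Measurable ({v | ¬ 0 < f v}.indicator 1 : Sph Z → ℝ≥0∞) :=
      measurable_one.indicator hT
    have h1 := li _ mi
    rw [lintegral_indicator_one hT, ae_iff.1 s2, mul_zero] at h1
    filter_upwards [(lintegral_eq_zero_iff' ((i2 ℝ _ cρ).ennreal_ofReal.mul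
      (mi.comp_aemeasurable (i2 _ p mp.ct)))).1 h1, dq.ae] with y h2 hy
    rw [eσ y hy]
    refine mul_pos ?_ (pow_pos (pT y hy).1 _)
    by_contra h3
    have h4 : ENNReal.ofReal (tq a b y ^ x * hp a b y ^ (-θ)) *
      ({v | ¬ 0 < f v}.indicator 1 : Sph Z → ℝ≥0∞) (p y) = 0 := h2
    rw [indicator_of_mem (show p y ∈ {v | ¬ 0 < f v} from h3), Pi.one_apply, mul_one,
      ENNReal.ofReal_eq_zero] at h4
    exact (pρ y hy).not_ge h4
  · have hi : Integrable (fun v => f v ^ (-(t : ℝ))) (m : Measure (Sph Z)) := by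
      rcases t.eq_zero_or_pos with rfl | t0
      · exact (integrable_const (1 : ℝ)).congr (ae_of_all _ fun v => by simp)
      · exact s3 t (Nat.cast_pos.2 t0)
    have h1 := li _ (cf.measurable.pow_const (-(t : ℝ))).ennreal_ofReal
    refine ne_of_eq_of_ne (Eq.trans (lintegral_congr_ae (dq.ae.mono fun y hy => ?_)) h1)
      (ENNReal.mul_ne_top c1 hi.lintegral_lt_top.ne)
    beta_reduce
    rw [eσ y hy, div_mul_cancel_right₀ (pow_pos (pT y hy).1 _).ne', ENNReal.ofReal_mul (pρ y hy).le,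
      Real.rpow_neg (f0 _), Real.rpow_natCast, inv_pow]
  · obtain ⟨q, hq⟩ := exists_nat_gt (w / c')
    have q0 : (0 : ℝ) < q := (div_nonneg w0 c0.le).trans_lt hq
    obtain ⟨G, hG⟩ := mdl.gen q (Nat.cast_pos.1 q0)
    have a1 := st_ADM.log (div_nonneg w0 q0.le) hG
    rw [div_mul_cancel₀ _ q0.ne'] at a1
    have a2 := st_ADM.mono (c' := c') (by
      rw [Nat.cast_one, mul_one, div_le_iff₀ q0, mul_comm]
      exact ((div_lt_iff₀ c0).1 hq).le) a1
    obtain ⟨C, hC⟩ := (isCompact_range (st_ADM.cadm a2).1.abs).bddAbove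
    refine ⟨_, C, pv _ _ _ a2, fun y _ => ?_⟩
    rw [add_sub_cancel_right]
    exact hC ⟨p y, rfl⟩

end Pool.Agent.Lib.KJ
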