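import Pool.Agent.Lib.KJ.Blue

/-! Project kj: the theorem of the project. -/

open scoped Classical Topology ContDiff ENNReal ComplexOrder
open Set MeasureTheory Complex Metric Filter

noncomputable section

namespace Pool.Agent.Lib.KJ

open Pool.Agent.Lib.SV (E nsq)
open Pool.Agent.Lib.HS32 Pool.Agent.Lib.NV6
open Pool.Agent.Lib.KH (OnK SmK HoK HqB)
open Pool.Agent.Lib.NV6.J (mon pv Dv Cb qt)

namespace SIG

theorem nsq_prod {I J : Type} [Fintype I] [Fintype J] (a : I → ℂ) (b : J → ℂ) :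
    nsq (fun p : I × J => a p.1 * b p.2) = nsq a * nsq b := by
  simp only [nsq, Fintype.sum_prod_type, normSq_mul, Finset.sum_mul_sum]

theorem nsq_eqv {I J : Type} [Fintype I] [Fintype J] (ε : I ≃ J) (a : J → ℂ) :
    nsq (fun i => a (ε i)) = nsq a := Equiv.sum_comp ε fun j => normSq (a j)

variable {n : ℕ} {M : Mf n} {O : Set M.X} {ν : Measure M.X} {T T' H : M.X → ℝ} {x θ : ℝ}

theorem iv (h : Ms M O ν) {f f' : M.X → ℝ} (k : Iv ν f ≠ ⊤) (e : ∀ y ∈ O, f y = f' y) :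
    Iv ν f' ≠ ⊤ := fun c =>
  k ((lintegral_congr_ae (h.ae.mono fun y hy => by rw [e y hy])).trans c)

theorem dq (e : ∀ y ∈ O, T y = T' y) (h : Dq M O ν T H x θ) : Dq M O ν T' H x θ :=
  ⟨h.toMs, h.hq, h.x0, h.θ0, iv h.toMs h.fin fun y hy => by rw [e y hy]⟩

theorem sig {N r : ℕ} {σ : Fin r → M.X → ℂ} (e : ∀ y ∈ O, T y = T' y)
    (h : Sig M O ν T H x θ N σ) : Sig M O ν T' H x θ N σ :=
  ⟨dq e h.toDq, h.N0, fun y hy => e y hy ▸ h.pT y hy, h.hol,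
    h.bd.imp fun _ hC y hy => e y hy ▸ hC y hy, h.nz,
    fun t => iv h.toMs (h.mom t) fun y hy => by rw [e y hy],
    fun w hw c hc => (h.adm w hw c hc).imp fun _ => Exists.imp fun _ k =>
      ⟨k.1, fun y hy => e y hy ▸ k.2 y hy⟩⟩

end SIG

open SIG in
theorem jSIG (hK : St_KIT) (hJ : St_JJ) (hB : St_BRG) (hP : St_PUL) (hS : St_SG) : St_SIG := by
  intro n r r₁ r₂ M O μ d k ε a b B u P ha hb md rk dm
  obtain ⟨m, e, Q, fm, nf, cb⟩ := hJ n r M O μ d k _ _ B u md rk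
  set h : Fin r → M.X → ℂ := fun β y => a (ε β).1 y * b (ε β).2 y with hh
  have nz : ∀ x ∈ Oq O h Q, (∀ i, a i x ≠ 0) ∧ (∀ j, b j x ≠ 0) ∧ ∀ i, pv h (Q i) x ≠ 0 :=
    fun x hx => ⟨fun i => by
      have := left_ne_zero_of_mul ((md.hne x hx.1).1 (ε.symm (i, 0)))
      rwa [ε.apply_symm_apply] at this, fun j => by
      have := right_ne_zero_of_mul ((md.hne x hx.1).1 (ε.symm (0, j)))
      rwa [ε.apply_symm_apply] at this, hx.2⟩
  obtain ⟨b1, b2⟩ := hB M.X _ _ r m (Oq O h Q) ε a b (fun i => pv h (Q i)) nz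
  have mdl := b1 _ finProdFinEquiv.symm (nf _ _)
  set a' : Fin (r₁ + 1) × Fin m → M.X → ℂ := fun p y => a p.1 y * pv h (Q p.2) y
  set b' : Fin (r₂ + 1) × Fin m → M.X → ℂ := fun p y => b p.1 y * pv h (Q p.2) y
  have i0 : Fin m := ⟨0, fm.m0⟩
  have eT : ∀ y ∈ Oq O h Q, tq a b y = tq a' b' y := fun y hy => by
    have q0 : nsq (fun i => pv h (Q i) y) ≠ 0 := fun c => hy.2 i0 (normSq_eq_zero.1
      ((Finset.sum_eq_zero_iff_of_nonneg fun _ _ => normSq_nonneg _).1 c i0 (Finset.mem_univ _)))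
    show _ = nsq (fun p : _ × _ => a p.1 y * pv h (Q p.2) y) /
      nsq fun p : _ × _ => b p.1 y * pv h (Q p.2) y
    rw [nsq_prod (a · y) fun i => pv h (Q i) y, nsq_prod (b · y) fun i => pv h (Q i) y,
      mul_div_mul_right _ _ q0]
    rfl
  obtain ⟨ν, x, θ, D, pp, fd, van⟩ := dm m e Q fm (hp a' b') fun y => by
    show nsq (fun p : _ × _ => a p.1 y * pv h (Q p.2) y) *
      nsq (fun p : _ × _ => b p.1 y * pv h (Q p.2) y) = _
    rw [nsq_prod (a · y) fun i => pv h (Q i) y, nsq_prod (b · y) fun i => pv h (Q i) y,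
      show nsq (h · y) = _ from (nsq_eqv ε fun p => a p.1 y * b p.2 y).trans (nsq_prod (a · y) (b · y))]
    ring
  obtain ⟨-, k2, -, k4, k5, -⟩ := hK n M _ md.op
  obtain ⟨-, l2, -⟩ := hK n M _ D.op
  have sub : Oq O h Q ⊆ O := fun _ hx => hx.1
  have hQ : ∀ i, HoK M (Oq O h Q) (pv h (Q i)) := fun i =>
    (k4 _ ((k5 _ h md.hol).2.2.2.1 (Q i))).2.1 _ sub
  obtain ⟨p1, -⟩ := hP n M (Oq O h Q) _ _ _ a' b'
  obtain ⟨p, mp⟩ := p1 D.op D.ne ⟨(0, i0)⟩ ⟨(0, i0)⟩ mdl.cone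
    (fun i => (l2 _ _ ((k4 _ (ha i.1)).2.1 _ sub) (hQ i.2)).2.2.1)
    (fun i => (l2 _ _ ((k4 _ (hb i.1)).2.1 _ sub) (hQ i.2)).2.2.1)
    (fun y hy => ⟨fun i => mul_ne_zero ((nz y hy).1 _) (hy.2 _),
      fun i => mul_ne_zero ((nz y hy).2.1 _) (hy.2 _)⟩) fun y hy R hR => by
        simpa using hR 1 ⟨y, hy⟩
  obtain ⟨N, r₀, σ, hs⟩ := hS n M _ ν _ _ _ a' b' p x θ mdl mp (dq eT D)
    (fun j => (fd j).imp fun V hV => ⟨hV.1, fun F hF => hV.2 ⟨hF.1, hF.2.1,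
      hF.2.2.imp fun _ hC y hy => eT y hy ▸ hC y hy⟩⟩) fun N N0 xN F hF fin => by
      obtain ⟨s, s1, s2⟩ := van N N0 xN F hF (iv D.toMs fin fun y hy => by rw [eT y hy])
      obtain ⟨S, S1, S2⟩ := b2 N s (Fin.pos (ε.symm (0, 0))) fm.m0 (cb N N0 s s1)
      exact ⟨S, S1, fun y hy => (s2 y hy).symm.trans (S2 y hy).symm⟩
  exact ⟨_, ν, _, x, θ, N, r₀, σ, sub, pp, sig (fun y hy => (eT y hy).symm) hs⟩

end Pool.Agent.Lib.KJ
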