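import Pool.Agent.Lib.KJ.Blue
import Pool.Agent.Lib.S3K.Sko

/-! Project kj: the division of Skoda. -/

open scoped Classical Topology ENNReal
open Set MeasureTheory Complex Filter

noncomputable section

namespace Pool.Agent.Lib.KJ

open Pool.Agent.Lib.SV (nsq nsq_nonneg)
open Pool.Agent.Lib.HS32
open Pool.Agent.Lib.KH (HoK)
open Pool.Agent.Lib.S3K.SKO (fatou cmp t_nsq m_nsq)

theorem jSK (hK : St_KIT) (hI : St_INT) (hT : St_ITR) : St_SK := by
  intro n r M O ν h φ j f hm hq hh hφ hj hd hf fin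
  obtain ⟨-, k2, -, k4, k5, k6, -⟩ := hK n M O hm.op
  obtain ⟨-, i2, -, -, i5, i6⟩ := hI n M O ν hm
  have am : ∀ F, HoK M O F → AEMeasurable F ν := fun F hF => i2 _ _ (k4 F hF).1
  have mw : ∀ i, AEMeasurable (wj h φ i) ν := fun i =>
    (i2 _ _ (k6 φ hφ).1.neg.rexp).div ((m_nsq fun a => am _ (hh.hol a)).pow_const i)
  have pw : ∀ i, ∀ x ∈ O, 0 < wj h φ i x := fun i x hx =>
    div_pos (Real.exp_pos _) (pow_pos (hh.pos x hx) _)
  have p := hm.ae.mono (pw j)
  obtain ⟨S, hS⟩ := i6 _ (mw j) (p.mono fun x hx => hx.le)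
  obtain ⟨V, hV, hSV⟩ := hd
  have : FiniteDimensional ℂ S :=
    Submodule.finiteDimensional_of_le (S₂ := V) fun x hx => hSV (hS ▸ hx)
  choose F f1 f2 f3 using fun i => hT n r M O ν h φ j i f hm hq hh hφ hj hf
  have f16 := ENNReal.mul_ne_top (show (16 : ℝ≥0∞) ≠ ⊤ by norm_num) fin
  have g1 : ∀ i a, O.indicator (F i a) ∈ L2 M O ν (wj h φ j) := fun i a =>
    i5 _ _ (f1 i a) (ne_top_of_le_ne_top f16 (le_trans (lintegral_mono_ae (p.mono fun x hx =>
      ENNReal.ofReal_le_ofReal (mul_le_mul_of_nonneg_right (Finset.single_le_sum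
        (f := fun b => normSq (F i b x)) (fun _ _ => normSq_nonneg _) (Finset.mem_univ a))
        hx.le))) (f2 i)))
  let L : (Fin r → S) →ₗ[ℂ] Fin r → M.X → ℂ :=
    LinearMap.pi fun a => (Submodule.subtype _).comp (LinearMap.proj a)
  have hL : ∀ b ∈ LinearMap.range L, ∀ a, b a ∈ L2 M O ν (wj h φ j) := by
    rintro _ ⟨b, rfl⟩ a
    exact hS ▸ (b a).2
  obtain ⟨b, hb, ψ, b2, b3⟩ := cmp (LinearMap.range L) (mw j) p
    (fun b hb a => am _ (hL b hb a).1)
    (fun b hb h0 => funext fun a => funext fun x => by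
      by_cases hx : x ∈ O
      · exact hm.sees _ (k4 _ (hL b hb a).1).1 (h0 a) x hx
      · exact (hL b hb a).2.1 x hx)
    (η := fun i a => O.indicator (F i a))
    (fun i => ⟨fun a => ⟨O.indicator (F i a), hS.ge (g1 i a)⟩, rfl⟩) f16
    fun i => le_trans (lintegral_mono_ae (hm.ae.mono fun x hx => by
      simp only [indicator_of_mem hx, le_refl])) (f2 i)
  have sp : ∀ u : Fin r → M.X → ℂ, (∀ a, HoK M O (u a)) →
      HoK M O fun x => f x - ∑ a, h a x * u a x := fun u hu =>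
    (k2 _ _ hf (k5 _ _ fun a => (k2 _ _ (hh.hol a) (hu a)).2.2.1).1).2.1
  have mm := fun u hu =>
    (continuous_normSq.measurable.comp_aemeasurable (am _ (sp u hu))).mul (mw (j + 1))
  have b1 := fun a => (hL b hb a).1
  refine ⟨b, hL b hb, fun x hx => sub_eq_zero.1 (hm.sees _ (k4 _ (sp b b1)).1 ?_ x hx)⟩
  have z := fatou (B := 0) (A := fun i => (4⁻¹ : ℝ≥0∞) ^ ψ i *
      Iv ν fun x => normSq (f x) * wj h φ (j + 1) x) (fun i => mm _ (f1 (ψ i)))
    (hm.ae.mono fun x hx => ((continuous_normSq.tendsto _).comp (tendsto_const_nhds.sub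
      (tendsto_finsetSum _ fun a _ => ((b3 a x).congr fun i =>
        indicator_of_mem hx _).const_mul (h a x)))).mul_const _)
    (fun i => by
      rw [← ENNReal.inv_pow]
      exact (ENNReal.mul_le_iff_le_inv (by simp) (by simp)).1 (f3 (ψ i)))
    (by simpa using ENNReal.Tendsto.mul_const ((ENNReal.tendsto_pow_atTop_nhds_zero_of_lt_one
      (show (4⁻¹ : ℝ≥0∞) < 1 by norm_num)).comp b2.tendsto_atTop) (Or.inr fin))
  filter_upwards [(lintegral_eq_zero_iff' (mm b b1).ennreal_ofReal).1 (le_antisymm z zero_le),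
    hm.ae] with x hx ho
  exact normSq_eq_zero.1 (le_antisymm
    (nonpos_of_mul_nonpos_left (ENNReal.ofReal_eq_zero.1 hx) (pw _ x ho)) (normSq_nonneg _))

end Pool.Agent.Lib.KJ
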