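import Pool.Agent.Lib.KJ.Blue

/-! Project kj: the iterated division. -/

open scoped Classical Topology ContDiff ENNReal
open Set

noncomputable section

namespace Pool.Agent.Lib.KJ

open Pool.Agent.Lib.NV6.J (mon)

theorem jSKK (_ : St_KIT) (hINT : St_INT) (hSK : St_SK) : St_SKK := by
  intro n r M O ν h φ j k f hM hQ hF hφ hj hd
  induction k generalizing f with
  | zero =>
    intro hf hN
    exact ⟨fun _ => O.indicator f, fun _ => (hINT n M O ν hM).2.2.2.2.1 f _ hf hN,
      fun x hx => by simp [mon, hx]⟩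
  | succ k ih =>
    intro hf hN
    obtain ⟨H, h1, h2⟩ := hSK n r M O ν h φ (j + k) f hM hQ hF hφ (by omega) (hd k) hf hN
    choose G g1 g2 using fun a => ih (H a) (h1 a).1 (h1 a).2.2
    refine ⟨fun I => G (I 0) (Fin.tail I), fun I => g1 _ _, fun x hx => ?_⟩
    rw [h2 x hx, ← (Fin.consEquiv fun _ : Fin (k + 1) => Fin r).sum_comp, Fintype.sum_prod_type]
    refine Finset.sum_congr rfl fun a _ => ?_
    rw [g2 a x hx, Finset.mul_sum]
    refine Finset.sum_congr rfl fun I _ => ?_
    simp [mon, Fin.consEquiv, Fin.prod_univ_succ, mul_assoc]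

end Pool.Agent.Lib.KJ
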