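import Pool.Agent.Lib.KJ.Blue
import Pool.Agent.Lib.NV6.J_SND

/-! Project kj: the sandwich. -/

open scoped Classical Topology ContDiff ENNReal
open Set MeasureTheory Complex Metric Filter

noncomputable section

namespace Pool.Agent.Lib.KJ

open Pool.Agent.Lib.SV (E nsq nsq_nonneg)
open Pool.Agent.Lib.NV6.J (qt)

theorem jSND (hKIT : St_KIT) (_hINT : St_INT) (hLOW : St_LOW) : St_SND := by
  intro n r M O μ d k h W B u N s m hN hs
  obtain ⟨-, -, -, -, k5, k6, -⟩ := hKIT n M O m.op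
  have d1 : (1 : ℝ) ≤ d := Nat.one_le_cast.2 m.d0
  have N1 : (1 : ℝ) ≤ N := Nat.one_le_cast.2 hN
  have a0 : (0 : ℝ) ≤ N - 1 / d := sub_nonneg.2 ((div_le_one (by linarith)).2 d1 |>.trans N1)
  obtain ⟨N₂, hN₂⟩ := exists_nat_gt ((N - 1 / d : ℝ) * ((4 * r + 1 : ℕ) + 1) / (s / 2))
  have p2 : (0 : ℝ) < N₂ := lt_of_le_of_lt (div_nonneg (by positivity) (by linarith [hs.1])) hN₂
  obtain ⟨m', σ, C₁, c1, hσ, hb⟩ := hLOW n r M O μ d k h W B u N₂ (4 * r + 1) m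
    (Nat.cast_pos.1 p2) (Nat.lt_succ_self _)
  obtain ⟨Cb, hCb⟩ := m.rb
  set θ : ℝ := (N - 1 / d) / N₂ with hθ
  have θ0 : 0 ≤ θ := div_nonneg a0 p2.le
  have θ1 : θ * ((4 * r + 1 : ℕ) + 1) ≤ s / 2 := by
    rw [hθ, div_mul_eq_mul_div, div_le_iff₀ p2]
    rw [div_lt_iff₀ (by linarith [hs.1])] at hN₂
    linarith
  have ha : (1 : ℝ) / d - N = -(θ * N₂) := by rw [hθ, div_mul_cancel₀ _ p2.ne']; ring
  have pT : ∀ x ∈ O, 0 < qt W h x := fun x hx => by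
    have h1 := m.pos x hx
    refine div_pos ?_ h1
    rcases isEmpty_or_nonempty (Fin r) with h0 | ⟨⟨a⟩⟩
    · simp [nsq] at h1
    · exact Finset.sum_pos' (fun i _ => normSq_nonneg _)
        ⟨a, Finset.mem_univ _, normSq_pos.2 ((m.hne x hx).2 a)⟩
  have t0 : (0 : ℝ) ≤ k + 1 - θ * (4 * r + 1 : ℕ) - s * k := by
    have : s * k ≤ k := mul_le_of_le_one_left (Nat.cast_nonneg k) hs.2
    nlinarith [hs.2]
  refine ⟨fun x => θ * Real.log (nsq (σ · x)) +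
    (k + 1 - θ * (4 * r + 1 : ℕ) - s * k) * Real.log (nsq (h · x)),
    Real.exp (θ * Real.log C₁ + |Real.log Cb|),
    (k6 _ ((k6 _ ((k5 _ σ hσ.hol).2.2.2.2 hσ.pos)).2.2.1 _ θ0)).2.2.2.1 _
      ((k6 _ ((k5 _ h m.hol).2.2.2.2 m.pos)).2.2.1 _ t0), ?_⟩
  filter_upwards [hb, hCb, m.B0, m.ae] with x h1 h2 h3 hx
  have c := NV6.J.SNDk.core (pT x hx) (m.pos x hx) h3 c1 θ0 θ1 hs.2 ha h1.1 h1.2 h2
  rw [Real.rpow_def_of_pos h3, ← Real.exp_add, show Real.log (B x) * -s +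
    -(θ * Real.log (nsq (σ · x)) + (k + 1 - θ * (4 * r + 1 : ℕ) - s * k) * Real.log (nsq (h · x))) =
    -(θ * Real.log (nsq (σ · x)) + s * Real.log (B x) +
      (k + 1 - θ * (4 * r + 1 : ℕ) - s * k) * Real.log (nsq (h · x))) by ring]
  exact c

end Pool.Agent.Lib.KJ
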