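import Pool.Agent.Lib.KJ.Blue
import Pool.Agent.Lib.NV6.G_LEV

/-! Project kj: the inequality given by the test section. -/

open scoped Classical Topology ContDiff ENNReal ComplexOrder
open Set MeasureTheory Complex Metric Filter

noncomputable section

namespace Pool.Agent.Lib.KJ

open Pool.Agent.Lib.SV (E nsq)
open Pool.Agent.Lib.HS32 Pool.Agent.Lib.ZL Pool.Agent.Lib.NV6
open Pool.Agent.Lib.EXS.K32
open Pool.Agent.Lib.KH (OnK SmK HoK HqB)

namespace TST

theorem sq_le (a b : ℂ) : normSq b ≤ 2 * normSq a + 2 * normSq (a - b) := by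
  simp only [normSq_apply, sub_re, sub_im]
  nlinarith [sq_nonneg (2 * a.re - b.re), sq_nonneg (2 * a.im - b.im)]

theorem lv0 {n : ℕ} {M : Mf n} {O : Set M.X} {φ : M.X → ℝ} (h : PsK M O φ) :
    OnK M O fun e z => ∀ v, 0 ≤ lv (φ ∘ e.symm) z v := fun e he z hz hw v =>
  (h.2 e he z hz hw).re_dotProduct_nonneg v

end TST

open TST in
theorem jTST (hKIT : St_KIT) (hINT : St_INT) : St_TST := by
  intro n M O ν U U' ψ φ θ hM H hU hU' hψ hφ θ0 fin fin'
  obtain ⟨-, -, -, k4, -, k6, -⟩ := hKIT n M O hM.op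
  have aem := (hINT n M O ν hM).2.1 ℝ
  set N : M.X → ℝ := fun x => normSq (U x) + Real.exp (ψ x) with hN
  have p : ∀ x, 0 < N x := fun x => add_pos_of_nonneg_of_pos (normSq_nonneg _) (Real.exp_pos _)
  have cg : ∀ {f : M.X → ℂ}, HoK M O f → ContinuousOn f O := fun h => (k4 _ h).1
  have cp : ∀ {f : M.X → ℝ}, PsK M O f → ContinuousOn f O := fun h => (k6 _ h).1
  have cN : ContinuousOn N O := (continuous_normSq.comp_continuousOn (cg hU)).add (cp hψ).rexp
  have sN : SmK M O fun x => Real.log (N x) := fun e he z hz hw =>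
    ((bLEV n z 0).1 _ _ (hU e he z hz hw) (hψ.1 e he z hz hw) (lv0 hψ e he z hz hw 0)).1
  have pN : PsK M O fun x => Real.log (N x) := ⟨sN, fun e he z hz hw =>
    psd_of_lv (sN e he z hz hw) fun v =>
      LEV.one36 (hU e he z hz hw) (hψ.1 e he z hz hw) (lv0 hψ e he z hz hw v)⟩
  have pT := (k6 _ pN).2.2.1 θ θ0.le
  have pW := (k6 _ pT).2.2.2.1 φ hφ
  have ew : ∀ x, Real.exp (-(θ * Real.log (N x) + φ x)) = N x ^ (-θ) * Real.exp (-φ x) := fun x => by
    rw [Real.rpow_def_of_pos (p x), ← Real.exp_add]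
    exact congrArg _ (by ring)
  have er : ∀ x, N x ^ (-2 - θ) = (N x ^ 2)⁻¹ * N x ^ (-θ) := fun x => by
    rw [sub_eq_add_neg, Real.rpow_add (p x), Real.rpow_neg (p x).le 2, Real.rpow_two]
  have e1 : ∀ x, normSq (U' x * (star (U x) * ((N x)⁻¹ : ℝ))) *
      (N x ^ (-θ) * Real.exp (-φ x)) =
      normSq (U x) * normSq (U' x) * N x ^ (-2 - θ) * Real.exp (-φ x) := fun x => by
    rw [er, map_mul, map_mul, normSq_ofReal, star_def, normSq_conj]
    ring_nf
  have q : ∀ x, 0 ≤ 1 / θ * (Real.exp (ψ x) * normSq (U' x) / N x ^ 2) := fun x =>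
    mul_nonneg (by positivity)
      (div_nonneg (mul_nonneg (Real.exp_pos _).le (normSq_nonneg _)) (sq_nonneg _))
  have c := fun e he z hz hw v => levU (hU e he z hz hw) (hU' e he z hz hw) (hψ.1 e he z hz hw)
    (lv0 hψ e he z hz hw v)
  obtain ⟨F, f1, f2⟩ := H (fun x => θ * Real.log (N x) + φ x)
    (fun x => 1 / θ * (Real.exp (ψ x) * normSq (U' x) / N x ^ 2))
    (fun x => U' x * (star (U x) * ((N x)⁻¹ : ℝ)))
    (aem _ (continuousOn_const.mul (((cp hψ).rexp.mul (continuous_normSq.comp_continuousOn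
      (cg hU'))).div (cN.pow 2) fun x _ => (pow_pos (p x) 2).ne')))
    ⟨pW.1, fun e he z hz hw => (c e he z hz hw 0).1, fun x _ => q x, pW.2,
      fun e he z hz hw v => by
        refine (c e he z hz hw v).2.trans (le_trans (le_of_eq ?_) (mul_le_mul_of_nonneg_left
          (((lv_mul (sN e he z hz hw) θ v).ge.trans (le_add_of_nonneg_right
            (lv0 hφ e he z hz hw v))).trans_eq
            (lv_add (pT.1 e he z hz hw) (hφ.1 e he z hz hw) v).symm) (q _)))
        change _ = 1 / θ * (_ * _ / _) * _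
        rw [mul_mul_mul_comm, one_div_mul_cancel θ0.ne', one_mul, mul_comm (Real.exp _)]
        rfl⟩ (by simp only [ew, e1]; exact fin)
  have e2 : ∫⁻ x, ENNReal.ofReal (1 / θ * (Real.exp (ψ x) * normSq (U' x) / N x ^ 2) *
      Real.exp (-(θ * Real.log (N x) + φ x))) ∂ν = ENNReal.ofReal (1 / θ) * ∫⁻ x, ENNReal.ofReal
        (Real.exp (ψ x) * normSq (U' x) * N x ^ (-2 - θ) * Real.exp (-φ x)) ∂ν := by
    rw [← lintegral_const_mul' _ _ ENNReal.ofReal_ne_top]
    refine lintegral_congr fun x => ?_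
    rw [← ENNReal.ofReal_mul (by positivity), ew, er]
    exact congrArg _ (by ring)
  rw [e2] at f2
  simp only [ew] at f2
  have two : (2 : ℝ≥0∞) ≠ ⊤ := ENNReal.ofNat_ne_top
  refine ⟨F, f1, ne_top_of_le_ne_top (ENNReal.add_ne_top.2 ⟨ENNReal.mul_ne_top two fin,
    ENNReal.mul_ne_top two (ne_top_of_le_ne_top
      (ENNReal.mul_ne_top ENNReal.ofReal_ne_top fin') f2)⟩) ?_, f2⟩
  have m1 : AEMeasurable (fun x => 2 * ENNReal.ofReal (normSq (U x) * normSq (U' x) *
      (normSq (U x) + Real.exp (ψ x)) ^ (-2 - θ) * Real.exp (-φ x))) ν :=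
    (aem _ ((((continuous_normSq.comp_continuousOn (cg hU)).mul
      (continuous_normSq.comp_continuousOn (cg hU'))).mul (cN.rpow_const fun x _ =>
        Or.inl (p x).ne')).mul (cp hφ).neg.rexp)).ennreal_ofReal.const_mul 2
  unfold Iv
  rw [← lintegral_const_mul' _ _ two, ← lintegral_const_mul' _ _ two, ← lintegral_add_left' m1]
  refine lintegral_mono fun x => ?_
  rw [← ENNReal.ofReal_ofNat, ← ENNReal.ofReal_mul zero_le_two, ← ENNReal.ofReal_mul zero_le_two]
  refine le_trans (ENNReal.ofReal_le_ofReal ?_) ENNReal.ofReal_add_le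
  refine le_trans (mul_le_mul_of_nonneg_right (sq_le (U' x * (star (U x) * ((N x)⁻¹ : ℝ))) _)
    (mul_pos (Real.rpow_pos_of_pos (p x) _) (Real.exp_pos _)).le) (le_of_eq ?_)
  rw [add_mul, mul_assoc, e1, mul_assoc 2]

end Pool.Agent.Lib.KJ
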