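import Pool.Agent.Lib.KJ.B_BRG
import Pool.Agent.Lib.KJ.B_DEN
import Pool.Agent.Lib.KJ.B_GDV
import Pool.Agent.Lib.KJ.B_GEN
import Pool.Agent.Lib.KJ.B_GOO
import Pool.Agent.Lib.KJ.B_IDL
import Pool.Agent.Lib.KJ.B_IDV
import Pool.Agent.Lib.KJ.B_INT
import Pool.Agent.Lib.KJ.B_ITR
import Pool.Agent.Lib.KJ.B_JJ
import Pool.Agent.Lib.KJ.B_KIT
import Pool.Agent.Lib.KJ.B_LEV
import Pool.Agent.Lib.KJ.B_LOW
import Pool.Agent.Lib.KJ.B_MUL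
import Pool.Agent.Lib.KJ.B_ONE
import Pool.Agent.Lib.KJ.B_PUL
import Pool.Agent.Lib.KJ.B_SG
import Pool.Agent.Lib.KJ.B_SIG
import Pool.Agent.Lib.KJ.B_SK
import Pool.Agent.Lib.KJ.B_SKK
import Pool.Agent.Lib.KJ.B_SND
import Pool.Agent.Lib.KJ.B_TST

/-! Project kj: the assembly. -/

namespace Pool.Agent.Lib.KJ

theorem aKIT : St_KIT := bKIT

theorem aINT : St_INT := jINT

theorem aSK : St_SK := jSK aKIT aINT (jITR aKIT aINT (bONE aKIT aINT))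

theorem aSKK : St_SKK := jSKK aKIT aINT aSK

theorem aIDL : St_IDL := bIDL aKIT aINT

theorem aLOW : St_LOW := jLOW aKIT aINT aSKK

theorem aGEN : St_GEN := bGEN aIDL (jIDV aKIT aINT aSKK (jSND aKIT aINT aLOW) aIDL)
  (jLEV aKIT aINT aIDL) (jMUL aKIT aINT aIDL)

theorem aJJ : St_JJ := jJJ aKIT aGEN (jDEN aKIT)

theorem aPUL : St_PUL := bPUL aKIT

theorem aTST : St_TST := jTST aKIT aINT

theorem aSG : St_SG := jSG aKIT aINT aPUL (jGDV aKIT aINT aPUL (jGOO aPUL aTST))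

theorem aSIG : St_SIG := jSIG aKIT aJJ jBRG aPUL aSG

end Pool.Agent.Lib.KJ
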