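import Pool.Agent.Lib.KJ.Blue
import Pool.Agent.Lib.NV6.J_FRM
import Pool.Agent.Lib.NV6.C_EXT
import Pool.Agent.Lib.NV6.C_HOM

/-! Project kj: from the generators to the model of the algebraic block. -/

open scoped Classical
open Set Complex

noncomputable section

namespace Pool.Agent.Lib.KJ

open Pool.Agent.Lib.HS32 Pool.Agent.Lib.NV6 MvPolynomial
open Pool.Agent.Lib.NV6.J (pv Cb)

namespace BRG

theorem brg {Y I K : Type} [Fintype I] [Fintype K] {r m r' : ℕ} {O : Set Y}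
    (e₀ : Fin r ≃ I × K) (ε : Fin r' ≃ Fin r × Fin m) {a : I → Y → ℂ} {b : K → Y → ℂ}
    {Q : Fin m → Y → ℂ} {h W : Fin r → Y → ℂ}
    (hh : ∀ x ∈ O, ∀ α, h α x = a (e₀ α).1 x * b (e₀ α).2 x ∧ W α x = a (e₀ α).1 x ^ 2)
    (ha : ∀ x ∈ O, ∀ i, a i x ≠ 0) (hb : ∀ x ∈ O, ∀ j, b j x ≠ 0) (hQ : ∀ x ∈ O, ∀ i, Q i x ≠ 0)
    (hN : Nf O (fun β y => h (ε β).1 y * Q (ε β).2 y) fun β y => W (ε β).1 y * Q (ε β).2 y) :
    Mdl (Clo fun x : O => sg (fun p : I × Fin m => a p.1 x * Q p.2 x,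
      fun p : K × Fin m => b p.1 x * Q p.2 x)) 1 := by
  have key := cEXT cHOM (I × Fin m) (K × Fin m) O (fun x p => a p.1 x * Q p.2 x)
    (fun x p => b p.1 x * Q p.2 x) 1 (fun x p => mul_ne_zero (ha x x.2 _) (hQ x x.2 _))
    (fun x p => mul_ne_zero (hb x x.2 _) (hQ x x.2 _))
  refine key fun q _ => ?_
  obtain ⟨m', u, hu⟩ := hN q
  let ρ : Fin m → Fin r' → (I × Fin m) × K × Fin m := fun μ β =>
    (((e₀ (ε β).1).1, (ε β).2), ((e₀ (ε β).1).2, μ))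
  have ren : ∀ (μ : Fin m) (k : ℕ) (R : MvPolynomial (Fin r') ℂ), R.IsHomogeneous k → ∀ x : O,
      eval (sg (fun p : I × Fin m => a p.1 x * Q p.2 x, fun p : K × Fin m => b p.1 x * Q p.2 x))
        (rename (ρ μ) R) = pv (fun β y => h (ε β).1 y * Q (ε β).2 y) R x * Q μ x ^ k := by
    intro μ k R hR x
    rw [eval_rename, pv, ← NV6.J.FRMk.scal hR]
    refine congrArg (fun f => eval f R) (funext fun β => ?_)
    simp only [Function.comp_apply, sg, ρ, (hh x x.2 _).1]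
    ring
  refine ⟨m' * m, fun l x => u (finProdFinEquiv.symm l).1 x * Q (finProdFinEquiv.symm l).2 x,
    fun l i j => ?_, fun i j => ?_⟩
  · obtain ⟨R, hR, hx⟩ := (hu (ε.symm (e₀.symm (i.1, j.1), j.2))).1 (finProdFinEquiv.symm l).1
    refine ⟨1, rename (ρ j.2) R * X (i, (j.1, (finProdFinEquiv.symm l).2)), ?_, fun x => ?_⟩
    · rw [add_comm 1 q]
      exact hR.rename_isHomogeneous.mul (isHomogeneous_X ℂ _)
    have h1 := hx x x.2
    simp only [Equiv.apply_symm_apply, (hh x x.2 _).1, (hh x x.2 _).2] at h1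
    rw [map_mul, ren _ _ R hR, eval_X]
    refine mul_left_cancel₀ (pow_ne_zero q
      (mul_ne_zero (pow_ne_zero 2 (ha x x.2 i.1)) (hQ x x.2 j.2))) ?_
    simp only [sg]
    linear_combination Q j.2 x ^ (q + 1) * (a i.1 x * Q i.2 x *
      (b j.1 x * Q (finProdFinEquiv.symm l).2 x)) * h1
  · obtain ⟨R, hR, hx⟩ := (hu (ε.symm (e₀.symm (i.1, j.1), i.2))).2
      (ε.symm (e₀.symm (i.1, j.1), i.2))
    refine ⟨0, fun l => if (finProdFinEquiv.symm l).2 = j.2 then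
      rename (ρ i.2) (R (finProdFinEquiv.symm l).1) else 0, fun l => ?_, fun x => ?_⟩
    · dsimp only
      split_ifs
      · exact (hR _).rename_isHomogeneous
      · exact isHomogeneous_zero _ _ _
    have h1 := hx x x.2
    simp only [Equiv.apply_symm_apply, (hh x x.2 _).1, (hh x x.2 _).2] at h1
    have h3 : ∀ p : Fin m' × Fin m, eval (sg (fun p : I × Fin m => a p.1 x * Q p.2 x,
        fun p : K × Fin m => b p.1 x * Q p.2 x)) (if p.2 = j.2 then rename (ρ i.2) (R p.1) else 0) *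
          (u p.1 x * Q p.2 x) = if p.2 = j.2 then Q i.2 x ^ q * Q j.2 x *
            (pv (fun β y => h (ε β).1 y * Q (ε β).2 y) (R p.1) x * u p.1 x) else 0 := by
      intro p
      split_ifs with hp
      · rw [ren _ _ _ (hR _), hp]
        ring
      · rw [map_zero, zero_mul]
    dsimp only
    rw [Finset.sum_congr rfl fun l _ => h3 (finProdFinEquiv.symm l),
      finProdFinEquiv.symm.sum_comp fun p : Fin m' × Fin m => if p.2 = j.2 then
        Q i.2 x ^ q * Q j.2 x * (pv (fun β y => h (ε β).1 y * Q (ε β).2 y) (R p.1) x * u p.1 x)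
        else 0, Fintype.sum_prod_type]
    simp only [Finset.sum_ite_eq', Finset.mem_univ, if_true]
    rw [← Finset.mul_sum, ← h1]
    ring

theorem ext {Y I K : Type} [Fintype I] [Fintype K] {r m q : ℕ} {O : Set Y} (e₀ : Fin r ≃ I × K)
    (i₀ : I × Fin m) (j₀ : K × Fin m) {a : I → Y → ℂ} {b : K → Y → ℂ} {Q : Fin m → Y → ℂ}
    {s : Y → ℂ} (ha : ∀ x ∈ O, ∀ i, a i x ≠ 0) (hb : ∀ x ∈ O, ∀ j, b j x ≠ 0)
    (hQ : ∀ x ∈ O, ∀ i, Q i x ≠ 0)
    (hs : ∀ α l, Cb O (fun β y => a (e₀ β).1 y * b (e₀ β).2 y) q Q fun x =>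
      s x * Q l x * (a (e₀ α).1 x * b (e₀ α).2 x) ^ (2 * q) / (a (e₀ α).1 x ^ 2) ^ q) :
    ∃ S, Sec (Clo fun x : O => sg (fun p : I × Fin m => a p.1 x * Q p.2 x,
      fun p : K × Fin m => b p.1 x * Q p.2 x)) q 0 S ∧ ∀ x ∈ O,
      S (fun p => a p.1 x * Q p.2 x, fun p => b p.1 x * Q p.2 x) = s x := by
  choose R r1 r2 using hs
  let ρ : Fin m → Fin r → (I × Fin m) × K × Fin m := fun μ β => (((e₀ β).1, μ), ((e₀ β).2, μ))
  have ren : ∀ (μ : Fin m) (R : MvPolynomial (Fin r) ℂ), R.IsHomogeneous q → ∀ x : O,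
      eval (sg (fun p : I × Fin m => a p.1 x * Q p.2 x, fun p : K × Fin m => b p.1 x * Q p.2 x))
        (rename (ρ μ) R) = pv (fun β y => a (e₀ β).1 y * b (e₀ β).2 y) R x * (Q μ x ^ 2) ^ q := by
    intro μ R hR x
    rw [eval_rename, pv, ← NV6.J.FRMk.scal hR]
    refine congrArg (fun f => eval f R) (funext fun β => ?_)
    simp only [Function.comp_apply, sg, ρ]
    ring
  have key : ∀ (i : I × Fin m) (j : K × Fin m) (x : O),
      s x * (b j.1 x * Q j.2 x) ^ (2 * q) * (a i.1 x * Q i.2 x * (b j.1 x * Q j.2 x)) ^ 1 =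
      eval (sg (fun p : I × Fin m => a p.1 x * Q p.2 x, fun p : K × Fin m => b p.1 x * Q p.2 x))
        (∑ l, rename (ρ j.2) (R (e₀.symm (i.1, j.1)) j.2 l) * X (i, (j.1, l))) := fun i j x => by
    have h1 := r2 (e₀.symm (i.1, j.1)) j.2 x x.2
    simp only [Equiv.apply_symm_apply] at h1
    rw [mul_pow, ← pow_mul, mul_div_assoc, mul_div_cancel_left₀ _ (pow_ne_zero _ (ha x x.2 _))] at h1
    rw [map_sum, Finset.sum_congr rfl fun l _ => by rw [map_mul, ren _ _ (r1 _ _ l), eval_X]]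
    have h2 := congrArg (· * ((Q j.2 x ^ 2) ^ q * (a i.1 x * Q i.2 x * b j.1 x))) h1
    simp only [Finset.sum_mul] at h2
    refine Eq.trans (by ring) (h2.trans (Finset.sum_congr rfl fun l _ => ?_))
    simp only [sg]
    ring
  obtain ⟨S, hS⟩ := CEXT.one cHOM (O := O) (fun x (p : I × Fin m) => a p.1 x * Q p.2 x)
    (fun x (p : K × Fin m) => b p.1 x * Q p.2 x) (q := q) (e := 0) (fun x => s x) (fun _ _ => 1)
    (fun i j => ∑ l, rename (ρ j.2) (R (e₀.symm (i.1, j.1)) j.2 l) * X (i, (j.1, l)))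
    (fun i j => IsHomogeneous.sum _ _ _ fun l _ => by
      rw [zero_add]
      exact (r1 _ _ l).rename_isHomogeneous.mul (isHomogeneous_X ℂ _)) key
  refine ⟨S, fun i j => ⟨1, _, hS i j⟩, fun x hx => ?_⟩
  have a0 := mul_ne_zero (ha x hx i₀.1) (hQ x hx i₀.2)
  have b0 := mul_ne_zero (hb x hx j₀.1) (hQ x hx j₀.2)
  have h1 := (hS i₀ j₀).2 (fun p => a p.1 x * Q p.2 x, fun p => b p.1 x * Q p.2 x)
    ⟨(cHOM.clo fun x : O => sg (fun p : I × Fin m => a p.1 x * Q p.2 x,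
      fun p : K × Fin m => b p.1 x * Q p.2 x)).2.1 ⟨x, hx⟩, fun h => a0 (congrFun h i₀),
      fun h => b0 (congrFun h j₀)⟩
  rw [← key i₀ j₀ ⟨x, hx⟩] at h1
  exact mul_right_cancel₀ (pow_ne_zero _ b0)
    (mul_right_cancel₀ (pow_ne_zero _ (mul_ne_zero a0 b0)) h1)

end BRG

theorem jBRG : St_BRG := fun _ _ _ _ _ _ _ _ e₀ a b _ hn =>
  ⟨fun _ ε hN => BRG.brg e₀ ε (h := fun α y => a (e₀ α).1 y * b (e₀ α).2 y)
      (W := fun α y => a (e₀ α).1 y ^ 2) (fun _ _ _ => ⟨rfl, rfl⟩) (fun x hx => (hn x hx).1)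
      (fun x hx => (hn x hx).2.1) (fun x hx => (hn x hx).2.2) hN,
    fun _ _ hr hm hs => BRG.ext e₀ ((e₀ ⟨0, hr⟩).1, ⟨0, hm⟩) ((e₀ ⟨0, hr⟩).2, ⟨0, hm⟩)
      (fun x hx => (hn x hx).1) (fun x hx => (hn x hx).2.1) (fun x hx => (hn x hx).2.2) hs⟩

end Pool.Agent.Lib.KJ
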