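import Pool.Agent.Lib.KJ.Blue
import Pool.Agent.Lib.NV6.J_LEV

/-! Project kj, row MUL: multiplication by a section raises the level. -/

open scoped Classical Topology ContDiff ENNReal ComplexOrder
open Set MeasureTheory Complex Metric Filter

noncomputable section

namespace Pool.Agent.Lib.KJ

open Pool.Agent.Lib.SV (E nsq)
open Pool.Agent.Lib.HS32 Pool.Agent.Lib.NV6
open Pool.Agent.Lib.NV6.J (qt)

namespace MUL

theorem rt {y B C : ℝ} {i : ℕ} (hy : 0 ≤ y) (hB : 0 < B) (hi : 0 < i) (h : y ^ i * B ≤ C) :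
    y ≤ max C 0 ^ (i : ℝ)⁻¹ * B ^ (-(i : ℝ)⁻¹) := by
  have h1 : y ^ i ≤ max C 0 * B⁻¹ := by
    rw [← div_eq_mul_inv, le_div_iff₀ hB]
    exact h.trans (le_max_left _ _)
  have h3 := Real.rpow_le_rpow (pow_nonneg hy i) h1 (inv_nonneg.2 (Nat.cast_nonneg i))
  rwa [Real.pow_rpow_inv_natCast hy hi.ne', Real.mul_rpow (le_max_right _ _) (inv_pos.2 hB).le,
    Real.inv_rpow hB.le, ← Real.rpow_neg hB.le] at h3

theorem pt {y f T B C H a t : ℝ} {i j : ℕ} (hy : 0 ≤ y) (hf : 0 ≤ f) (hT : 0 < T) (hB : 0 < B)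
    (hH : 0 < H) (hi : 0 < i) (h : y ^ i * B ≤ C * T ^ (i * j)) :
    y * f * (T ^ (a - (j + 1 : ℕ)) * B ^ (-(t - (i : ℝ)⁻¹)) / H) ≤
      max C 0 ^ (i : ℝ)⁻¹ * (f * (T ^ (a - (1 : ℕ)) * B ^ (-t) / H)) := by
  have h3 := rt (y := y / T ^ j) (C := C) (div_nonneg hy (pow_pos hT j).le) hB hi (by
    rwa [div_pow, div_mul_eq_mul_div, div_le_iff₀ (pow_pos (pow_pos hT j) _), ← pow_mul,
      mul_comm j])
  have e1 : B ^ (-t) = B ^ (-(i : ℝ)⁻¹) * B ^ (-(t - (i : ℝ)⁻¹)) := by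
    rw [← Real.rpow_add hB]
    exact congrArg _ (by ring)
  have h4 := mul_le_mul_of_nonneg_right h3 (mul_nonneg hf (div_pos (mul_pos
    (Real.rpow_pos_of_pos hT (a - (1 : ℕ))) (Real.rpow_pos_of_pos hB (-(t - (i : ℝ)⁻¹)))) hH).le)
  have h5 := (pow_pos hT j).ne'
  rw [e1]
  refine le_trans (le_of_eq ?_) (h4.trans (le_of_eq (by ring)))
  rw [J.LEVk.lev hT _ j]
  field_simp

end MUL

theorem jMUL (hKIT : St_KIT) (hINT : St_INT) (hIDL : St_IDL) : St_MUL := by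
  rintro n r M O μ d k h W B u j c s md hj hs F ⟨t, ht, h1, h0, h2⟩
  obtain ⟨-, k2, -⟩ := hKIT n M O md.op
  obtain ⟨-, -, kI, -⟩ := hINT n M O μ md.toMs
  obtain ⟨i1, i2, -⟩ := hIDL n r M O μ d k h W B u md
  obtain ⟨i, hi⟩ := exists_nat_one_div_lt ht.1
  have hi' : ((i + 1 : ℕ) : ℝ)⁻¹ < t := by
    rw [← one_div]
    exact_mod_cast hi
  have hp : (0 : ℝ) < ((i + 1 : ℕ) : ℝ)⁻¹ := inv_pos.2 (Nat.cast_pos.2 i.succ_pos)
  obtain ⟨C, hC⟩ := md.r2 _ 0 (Nat.mul_pos i.succ_pos hj) _ (hs (i + 1) i.succ_pos)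
  have s1 := (hs 1 one_pos).1
  rw [pow_one] at s1
  refine ⟨t - ((i + 1 : ℕ) : ℝ)⁻¹, ⟨sub_pos.2 hi', (sub_le_self t hp.le).trans ht.2⟩,
    (k2 _ _ s1 h1).2.2.1, fun x hx => mul_eq_zero_of_right _ (h0 x hx),
    kI _ _ (max C 0 ^ ((i + 1 : ℕ) : ℝ)⁻¹) ?_ h2⟩
  filter_upwards [i2, hC] with x hx hc
  rw [pow_zero, mul_one, zero_add, pow_one, Pi.pow_apply, map_pow] at hc
  refine ⟨mul_nonneg (normSq_nonneg _) (hx.2.2 1 t c).le, ?_⟩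
  rw [map_mul]
  exact MUL.pt (normSq_nonneg _) (normSq_nonneg _) (i1 x hx.1) hx.2.1
    (pow_pos (md.pos x hx.1) c) i.succ_pos hc

end Pool.Agent.Lib.KJ
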