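import Pool.Agent.Lib.KH.Blue
import Pool.Agent.Lib.NV6.JBlue
import Pool.Agent.Lib.S5.T9Defs

/-! Project kj: the nef model and the sections with all negative moments, on an open subset of a
compact manifold. Objects and blueprint. -/

open scoped Classical Topology ContDiff ENNReal ComplexOrder
open Set MeasureTheory Complex Metric Filter

set_option linter.unusedVariables false

noncomputable section

namespace Pool.Agent.Lib.KJ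

open Pool.Agent.Lib.SV (E nsq)
open Pool.Agent.Lib.HS32 Pool.Agent.Lib.NV6
open Pool.Agent.Lib.KH (OnK SmK HoK HqB)
open Pool.Agent.Lib.NV6.J (mon pv Dv Cb qt)
open Pool.Agent.Lib.S5 (GoodV Vs)

section defs

variable {Y : Type} {r : ℕ}

/-- The integral. -/
def Iv [MeasurableSpace Y] (ν : Measure Y) (f : Y → ℝ) : ℝ≥0∞ := ∫⁻ x, ENNReal.ofReal (f x) ∂ν

/-- The set lies in a space of finite dimension. -/
def Fd (S : Set (Y → ℂ)) : Prop := ∃ V : Submodule ℂ (Y → ℂ), FiniteDimensional ℂ V ∧ S ⊆ V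

/-- The weight in degree `j`. -/
def wj (h : Fin r → Y → ℂ) (φ : Y → ℝ) (j : ℕ) (x : Y) : ℝ := Real.exp (-φ x) / nsq (h · x) ^ j

/-- The normalised defect. -/
def bt (h : Fin r → Y → ℂ) (k : ℕ) (B : Y → ℝ) (x : Y) : ℝ := B x / nsq (h · x) ^ k

/-- The weight of the ideals. -/
def om (d k : ℕ) (h W : Fin r → Y → ℂ) (B : Y → ℝ) (N : ℕ) (s : ℝ) (c : ℕ) (x : Y) : ℝ :=
  qt W h x ^ ((1 : ℝ) / d - N) * bt h k B x ^ (-s) / nsq (h · x) ^ c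

/-- The points at which no form of the family vanishes. -/
def Oq {m : ℕ} (O : Set Y) (h : Fin r → Y → ℂ) (Q : Fin m → MvPolynomial (Fin r) ℂ) : Set Y :=
  {x | x ∈ O ∧ ∀ i, pv h (Q i) x ≠ 0}

/-- A family of forms of degree `e`, none of them zero on `O`. -/
structure Fm {m : ℕ} (O : Set Y) (h : Fin r → Y → ℂ) (e : ℕ)
    (Q : Fin m → MvPolynomial (Fin r) ℂ) : Prop where
  m0 : 0 < m
  hom : ∀ i, (Q i).IsHomogeneous e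
  ne : ∀ i, ∃ x ∈ O, pv h (Q i) x ≠ 0

/-- The class `q B + H` is generated for every `q`. -/
def Nf (O : Set Y) (h W : Fin r → Y → ℂ) : Prop :=
  ∀ q : ℕ, ∃ (m : ℕ) (u : Fin m → Y → ℂ), ∀ a,
    (∀ j, ∃ R : MvPolynomial (Fin r) ℂ, R.IsHomogeneous (q + 1) ∧
      ∀ x ∈ O, u j x * h a x ^ (2 * q) = W a x ^ q * pv h R x) ∧
    ∀ a', Cb O h q u fun x => W a x ^ q * h a' x

/-- The generators at all levels. -/
def Gq (O : Set Y) (h W : Fin r → Y → ℂ) {m : ℕ} (C : Fin m → Y → ℂ) : Prop :=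
  ∀ q : ℕ, ∃ (m' : ℕ) (s : Fin m' → Y → ℂ), ∀ a,
    (∀ j, Cb O h q C fun x => s j x * h a x ^ (2 * q) / W a x ^ q) ∧
    ∀ i, Cb O h q s fun x => C i x * W a x ^ q

/-- The quotient and the product of the squared norms. -/
def tq {I J : Type} [Fintype I] [Fintype J] (a : I → Y → ℂ) (b : J → Y → ℂ) (x : Y) : ℝ :=
  nsq (a · x) / nsq (b · x)

/-- The product of the squared norms. -/
def hp {I J : Type} [Fintype I] [Fintype J] (a : I → Y → ℂ) (b : J → Y → ℂ) (x : Y) : ℝ :=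
  nsq (a · x) * nsq (b · x)

variable {n : ℕ} (M : Mf n)

/-- Smooth and plurisubharmonic on `O`. -/
def PsK (O : Set M.X) (φ : M.X → ℝ) : Prop :=
  SmK M O φ ∧ OnK M O fun e z => (M.hs φ e z).PosSemidef

/-- The measure lives on the open set and sees all of it. -/
structure Ms (O : Set M.X) (ν : Measure M.X) : Prop where
  op : IsOpen O
  ne : O.Nonempty
  ae : ∀ᵐ x ∂ν, x ∈ O
  sees : ∀ f : M.X → ℂ, ContinuousOn f O → (∀ᵐ x ∂ν, f x = 0) → ∀ x ∈ O, f x = 0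

/-- The square integrable holomorphic functions. -/
def L2 (O : Set M.X) (ν : Measure M.X) (w : M.X → ℝ) : Set (M.X → ℂ) :=
  {F | HoK M O F ∧ (∀ x ∉ O, F x = 0) ∧ Iv ν (fun x => normSq (F x) * w x) ≠ ⊤}

/-- A holomorphic family without common zero. -/
structure Fr (O : Set M.X) (h : Fin r → M.X → ℂ) : Prop where
  hol : ∀ a, HoK M O (h a)
  pos : ∀ x ∈ O, 0 < nsq (h · x)

/-- The sections of level `N` and degree `c`. -/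
def Se (O : Set M.X) (μ : Measure M.X) (h : Fin r → M.X → ℂ) (u : ℕ → M.X → ℝ) (N c : ℕ) :
    Set (M.X → ℂ) := L2 M O μ fun x => u N x / nsq (h · x) ^ c

/-- The model: `qt W h` is the reference metric, `u N` the weight of the sections of level `N`. -/
structure Md (O : Set M.X) (μ : Measure M.X) (d k : ℕ) (h W : Fin r → M.X → ℂ) (B : M.X → ℝ)
    (u : ℕ → M.X → ℝ) : Prop extends Ms M O μ, Fr M O h where
  d0 : 0 < d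
  hW : ∀ a, HoK M O (W a)
  hne : ∀ x ∈ O, (∀ a, h a x ≠ 0) ∧ ∀ a, W a x ≠ 0
  nul : ∀ R, (∃ x ∈ O, pv h R x ≠ 0) → ∀ᵐ x ∂μ, pv h R x ≠ 0
  mB : AEMeasurable B μ
  B0 : ∀ᵐ x ∂μ, 0 < B x
  rb : ∃ C, ∀ᵐ x ∂μ, bt h k B x ≤ C
  hb : ∀ s ∈ Ioc (0 : ℝ) 1, HqB M O (μ.withDensity fun x => ENNReal.ofReal (B x ^ (-s)))
  int : ∃ s ∈ Ioc (0 : ℝ) 1, Iv μ (fun x => qt W h x ^ ((1 : ℝ) / d) * bt h k B x ^ (-s)) ≠ ⊤
  u0 : ∀ N, AEMeasurable (u N) μ ∧ ∀ᵐ x ∂μ, 0 < u N x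
  r1 : ∀ N : ℕ, 0 < N → ∃ C, ∀ᵐ x ∂μ, u N x ≤ C * qt W h x ^ ((1 : ℝ) / d - N)
  r3 : ∃ C, ∀ x ∈ O, ∀ a,
    nsq (W · x) * normSq (h a x) ^ 2 ≤ C * normSq (W a x) * nsq (h · x) ^ 2
  zo : ∀ N : ℕ, 0 < N → ∃ ρ : M.X → ℝ≥0∞, AEMeasurable ρ μ ∧ HqB M O (μ.withDensity ρ) ∧
    (∃ c > (0 : ℝ), ∀ᵐ x ∂μ, ENNReal.ofReal (c * u N x) ≤ ρ x) ∧
    Iv (μ.withDensity ρ) (fun x => qt W h x ^ N) ≠ ⊤
  fd : ∀ N c : ℕ, 0 < N → Fd (Se M O μ h u N c)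
  r2 : ∀ N c : ℕ, 0 < N → ∀ F ∈ Se M O μ h u N c, ∃ C, ∀ᵐ x ∂μ,
    normSq (F x) * bt h k B x ^ (c + 1) ≤ C * qt W h x ^ N * nsq (h · x) ^ c

/-- The sections of level one are quotients of forms. -/
def Rk (O : Set M.X) (μ : Measure M.X) (h : Fin r → M.X → ℂ) (u : ℕ → M.X → ℝ) : Prop :=
  ∀ c, ∀ F ∈ Se M O μ h u 1 c, ∃ (e : ℕ) (A B : MvPolynomial (Fin r) ℂ), A.IsHomogeneous e ∧
    B.IsHomogeneous e ∧ (∃ x ∈ O, pv h A x ≠ 0) ∧ ∀ x ∈ O, F x * pv h A x = pv h B x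

/-- The ideal of level `N` in degree `c`. -/
def Id (O : Set M.X) (μ : Measure M.X) (d k : ℕ) (h W : Fin r → M.X → ℂ) (B : M.X → ℝ)
    (N c : ℕ) : Set (M.X → ℂ) := {F | ∃ s ∈ Ioc (0 : ℝ) 1, F ∈ L2 M O μ (om d k h W B N s c)}

/-- All powers are sections. -/
def Pw (O : Set M.X) (μ : Measure M.X) (h : Fin r → M.X → ℂ) (u : ℕ → M.X → ℝ) (j : ℕ)
    (s : M.X → ℂ) : Prop := ∀ i, 0 < i → s ^ i ∈ Se M O μ h u (i * j) 0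

variable {I J : Type} [Fintype I] [Fintype J]

/-- A map from an open set to the model. -/
structure Mq (O : Set M.X) (Z : Set (I × J → ℂ)) (a : I → M.X → ℂ) (b : J → M.X → ℂ)
    (p : M.X → Sph Z) : Prop where
  op : IsOpen O
  cone : Cone Z
  ha : ∀ i, HoK M O (a i)
  hb : ∀ j, HoK M O (b j)
  ne : ∀ x ∈ O, (∀ i, a i x ≠ 0) ∧ ∀ j, b j x ≠ 0
  eq : ∀ x ∈ O, 0 < nsq (a · x) ∧ 0 < nsq (b · x) ∧
    (a · x) = (√(nsq (a · x)) : ℂ) • (p x).1.1 ∧ (b · x) = (√(nsq (b · x)) : ℂ) • (p x).1.2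
  ct : ContinuousOn p O

/-- A measure that pays the cost `θ` at the level `x`. -/
structure Dq (O : Set M.X) (ν : Measure M.X) (T H : M.X → ℝ) (x θ : ℝ) : Prop
    extends Ms M O ν where
  hq : HqB M O ν
  x0 : 0 ≤ x
  θ0 : 0 < θ
  fin : Iv ν (fun y => T y ^ x * H y ^ (-θ)) ≠ ⊤

/-- Domination: every family of forms has such a measure, and the square integrable functions are
sections all of whose powers are sections. -/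
def Dm (O : Set M.X) (μ : Measure M.X) (h : Fin r → M.X → ℂ) (u : ℕ → M.X → ℝ) (T : M.X → ℝ)
    (P : Set M.X → Measure M.X → (M.X → ℝ) → ℝ → ℝ → Prop) : Prop :=
  ∀ (m e : ℕ) (Q : Fin m → MvPolynomial (Fin r) ℂ), Fm O h e Q → ∀ H : M.X → ℝ,
    (∀ y, H y = nsq (h · y) * nsq (fun i => pv h (Q i) y) ^ 2) →
    ∃ ν x θ, Dq M (Oq O h Q) ν T H x θ ∧ P (Oq O h Q) ν H x θ ∧
      (∀ j : ℕ, Fd {F | HoK M (Oq O h Q) F ∧ (∀ y ∉ Oq O h Q, F y = 0) ∧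
        ∃ C, ∀ y ∈ Oq O h Q, normSq (F y) ≤ C * T y ^ j}) ∧
      ∀ N : ℕ, 0 < N → x ≤ N → ∀ F, HoK M (Oq O h Q) F →
        Iv ν (fun y => normSq (F y) * (T y ^ (-(N - x)) * H y ^ (-θ))) ≠ ⊤ →
        ∃ s, Pw M O μ h u N s ∧ ∀ y ∈ Oq O h Q, s y = F y

/-- The functions `σ` generate the reference metric in the sense of integrability, and the
reference metric is nef. -/
structure Sig (O : Set M.X) (ν : Measure M.X) (T H : M.X → ℝ) (x θ : ℝ) (N : ℕ)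
    (σ : Fin r → M.X → ℂ) : Prop extends Dq M O ν T H x θ where
  N0 : 0 < N
  pT : ∀ y ∈ O, 0 < T y ∧ 0 < H y
  hol : ∀ l, HoK M O (σ l)
  bd : ∃ C, ∀ y ∈ O, nsq (σ · y) ≤ C * T y ^ N
  nz : ∀ᵐ y ∂ν, 0 < nsq (σ · y)
  mom : ∀ t : ℕ, Iv ν (fun y => T y ^ x * H y ^ (-θ) * (T y ^ N / nsq (σ · y)) ^ t) ≠ ⊤
  adm : ∀ w ≥ (0 : ℝ), ∀ c > (0 : ℝ), ∃ φ C, PsK M O φ ∧
    ∀ y ∈ O, |φ y - (w * Real.log (T y) + c * Real.log (H y))| ≤ C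

end defs

/-! ### Rows -/

/-- Calculus on the open set. -/
def St_KIT : Prop := ∀ (n : ℕ) (M : Mf n) (O : Set M.X), IsOpen O →
  (∀ c : ℂ, HoK M O fun _ => c) ∧
  (∀ F G, HoK M O F → HoK M O G → HoK M O (fun x => F x + G x) ∧ HoK M O (fun x => F x - G x) ∧
    HoK M O (fun x => F x * G x) ∧ (∀ k : ℕ, HoK M O fun x => F x ^ k) ∧
    ((∀ x ∈ O, G x ≠ 0) → HoK M O fun x => F x / G x)) ∧
  (∀ F G, HoK M O F → (∀ x ∈ O, G x = F x) → HoK M O G) ∧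
  (∀ F, HoK M O F → ContinuousOn F O ∧ (∀ O' ⊆ O, HoK M O' F) ∧
    ((∀ x ∈ O, F x ≠ 0) → PsK M O fun x => Real.log (normSq (F x)))) ∧
  (∀ (κ : Type) [Fintype κ] (F : κ → M.X → ℂ), (∀ i, HoK M O (F i)) →
    HoK M O (fun x => ∑ i, F i x) ∧ HoK M O (fun x => ∏ i, F i x) ∧
    ContinuousOn (fun x => nsq (F · x)) O ∧
    (∀ R : MvPolynomial κ ℂ, HoK M O fun x => MvPolynomial.eval (F · x) R) ∧
    ((∀ x ∈ O, 0 < nsq (F · x)) → PsK M O fun x => Real.log (nsq (F · x)))) ∧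
  (∀ φ, PsK M O φ → ContinuousOn φ O ∧ (∀ O' ⊆ O, PsK M O' φ) ∧
    (∀ t ≥ (0 : ℝ), PsK M O fun x => t * φ x) ∧ (∀ ψ, PsK M O ψ → PsK M O fun x => φ x + ψ x) ∧
    ∀ ψ, (∀ x ∈ O, ψ x = φ x) → PsK M O ψ) ∧
  (∀ c : ℝ, PsK M O fun _ => c) ∧
  ∀ (κ : Type) [Fintype κ] (φ : κ → M.X → ℝ), (∀ i, PsK M O (φ i)) → PsK M O fun x => ∑ i, φ i x

/-- Integrals. -/
def St_INT : Prop := ∀ (n : ℕ) (M : Mf n) (O : Set M.X) (ν : Measure M.X), Ms M O ν → ν ≠ 0 ∧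
  (∀ (F : Type) [TopologicalSpace F] [MeasurableSpace F] [BorelSpace F] (f : M.X → F),
    ContinuousOn f O → AEMeasurable f ν) ∧
  (∀ (f f' : M.X → ℝ) (C : ℝ), (∀ᵐ x ∂ν, 0 ≤ f' x ∧ f x ≤ C * f' x) → Iv ν f' ≠ ⊤ → Iv ν f ≠ ⊤) ∧
  (∀ ρ : M.X → ℝ≥0∞, AEMeasurable ρ ν → (∀ᵐ x ∂ν, ρ x ≠ 0) → Ms M O (ν.withDensity ρ) ∧
    ∀ f, AEMeasurable f ν →
      Iv (ν.withDensity ρ) f = ∫⁻ x, ρ x * ENNReal.ofReal (f x) ∂ν) ∧
  (∀ F w, HoK M O F → Iv ν (fun x => normSq (F x) * w x) ≠ ⊤ → O.indicator F ∈ L2 M O ν w) ∧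
  ∀ w, AEMeasurable w ν → (∀ᵐ x ∂ν, 0 ≤ w x) →
    ∃ S : Submodule ℂ (M.X → ℂ), (S : Set (M.X → ℂ)) = L2 M O ν w

/-- One application of the theorem of Hörmander. -/
def St_ONE : Prop := ∀ (n r : ℕ) (M : Mf n) (O : Set M.X) (ν : Measure M.X)
  (h : Fin r → M.X → ℂ) (φ : M.X → ℝ) (j : ℕ) (f : M.X → ℂ) (a : Fin r), Ms M O ν → HqB M O ν →
  Fr M O h → PsK M O φ → 0 < j → HoK M O f → ∃ F, HoK M O F ∧
    Iv ν (fun x => normSq (f x * star (h a x) / nsq (h · x) - F x) * wj h φ j x) ≤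
      ENNReal.ofReal (j : ℝ)⁻¹ * Iv ν fun x => normSq (f x) * wj h φ (j + 1) x

/-- The iteration. -/
def St_ITR : Prop := ∀ (n r : ℕ) (M : Mf n) (O : Set M.X) (ν : Measure M.X)
  (h : Fin r → M.X → ℂ) (φ : M.X → ℝ) (j i : ℕ) (f : M.X → ℂ), Ms M O ν → HqB M O ν →
  Fr M O h → PsK M O φ → 4 * r < j → HoK M O f → ∃ F : Fin r → M.X → ℂ, (∀ a, HoK M O (F a)) ∧
    Iv ν (fun x => nsq (F · x) * wj h φ j x) ≤
      16 * Iv ν (fun x => normSq (f x) * wj h φ (j + 1) x) ∧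
    4 ^ i * Iv ν (fun x => normSq (f x - ∑ a, h a x * F a x) * wj h φ (j + 1) x) ≤
      Iv ν fun x => normSq (f x) * wj h φ (j + 1) x

/-- The division of Skoda. -/
def St_SK : Prop := ∀ (n r : ℕ) (M : Mf n) (O : Set M.X) (ν : Measure M.X)
  (h : Fin r → M.X → ℂ) (φ : M.X → ℝ) (j : ℕ) (f : M.X → ℂ), Ms M O ν → HqB M O ν →
  Fr M O h → PsK M O φ → 4 * r < j → Fd (L2 M O ν (wj h φ j)) → HoK M O f →
  Iv ν (fun x => normSq (f x) * wj h φ (j + 1) x) ≠ ⊤ →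
  ∃ F : Fin r → M.X → ℂ, (∀ a, F a ∈ L2 M O ν (wj h φ j)) ∧ ∀ x ∈ O, f x = ∑ a, h a x * F a x

/-- The iterated division. -/
def St_SKK : Prop := ∀ (n r : ℕ) (M : Mf n) (O : Set M.X) (ν : Measure M.X)
  (h : Fin r → M.X → ℂ) (φ : M.X → ℝ) (j k : ℕ) (f : M.X → ℂ), Ms M O ν → HqB M O ν →
  Fr M O h → PsK M O φ → 4 * r < j → (∀ i, Fd (L2 M O ν (wj h φ (j + i)))) → HoK M O f →
  Iv ν (fun x => normSq (f x) * wj h φ (j + k) x) ≠ ⊤ → Dv O h k (L2 M O ν (wj h φ j)) f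

/-- The sections of level `N` generate the reference metric up to the defect. -/
def St_LOW : Prop := ∀ (n r : ℕ) (M : Mf n) (O : Set M.X) (μ : Measure M.X) (d k : ℕ)
  (h W : Fin r → M.X → ℂ) (B : M.X → ℝ) (u : ℕ → M.X → ℝ) (N c : ℕ), Md M O μ d k h W B u →
  0 < N → 4 * r < c → ∃ (m : ℕ) (σ : Fin m → M.X → ℂ) (C : ℝ), 0 < C ∧ Fr M O σ ∧
    ∀ᵐ x ∂μ, qt W h x ^ N * nsq (h · x) ^ c ≤ C * nsq (σ · x) ∧
      nsq (σ · x) * bt h k B x ^ (c + 1) ≤ C * qt W h x ^ N * nsq (h · x) ^ c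

/-- The sandwich. -/
def St_SND : Prop := ∀ (n r : ℕ) (M : Mf n) (O : Set M.X) (μ : Measure M.X) (d k : ℕ)
  (h W : Fin r → M.X → ℂ) (B : M.X → ℝ) (u : ℕ → M.X → ℝ) (N : ℕ) (s : ℝ),
  Md M O μ d k h W B u → 0 < N → s ∈ Ioc (0 : ℝ) 1 → ∃ (φ : M.X → ℝ) (C : ℝ), PsK M O φ ∧
    ∀ᵐ x ∂μ, B x ^ (-s) * Real.exp (-φ x) ≤ C * om d k h W B N s (k + 1) x ∧
      om d k h W B N (s / 2) (k + 1) x ≤ C * (B x ^ (-s) * Real.exp (-φ x))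

/-- The ideals. -/
def St_IDL : Prop := ∀ (n r : ℕ) (M : Mf n) (O : Set M.X) (μ : Measure M.X) (d k : ℕ)
  (h W : Fin r → M.X → ℂ) (B : M.X → ℝ) (u : ℕ → M.X → ℝ), Md M O μ d k h W B u →
  (∀ x ∈ O, 0 < qt W h x) ∧
  (∀ᵐ x ∂μ, x ∈ O ∧ 0 < bt h k B x ∧ ∀ N s c, 0 < om d k h W B N s c x) ∧
  (∀ N s c, AEMeasurable (om d k h W B N s c) μ) ∧
  ∀ N c : ℕ, 0 < N → Id M O μ d k h W B N c ⊆ Se M O μ h u N c ∧
    ∃ S : Submodule ℂ (M.X → ℂ), FiniteDimensional ℂ S ∧ (S : Set _) = Id M O μ d k h W B N c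

/-- The ideals are generated in a fixed degree. -/
def St_IDV : Prop := ∀ (n r : ℕ) (M : Mf n) (O : Set M.X) (μ : Measure M.X) (d k : ℕ)
  (h W : Fin r → M.X → ℂ) (B : M.X → ℝ) (u : ℕ → M.X → ℝ) (N c q : ℕ), Md M O μ d k h W B u →
  0 < N → 4 * r + k + 1 < c →
  ∀ F ∈ Id M O μ d k h W B N (c + q), Dv O h q (Id M O μ d k h W B N c) F

/-- The change of level. -/
def St_LEV : Prop := ∀ (n r : ℕ) (M : Mf n) (O : Set M.X) (μ : Measure M.X) (d k : ℕ)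
  (h W : Fin r → M.X → ℂ) (B : M.X → ℝ) (u : ℕ → M.X → ℝ), Md M O μ d k h W B u → ∀ c q : ℕ,
  (∀ a, ∀ F ∈ Id M O μ d k h W B 1 c,
    (fun x => F x * W a x ^ q) ∈ Id M O μ d k h W B (q + 1) (c + q)) ∧
  (∀ a, ∀ F ∈ Id M O μ d k h W B (q + 1) c,
    (fun x => F x * h a x ^ (2 * q) / W a x ^ q) ∈ Id M O μ d k h W B 1 (c + q)) ∧
  ∃ F ∈ Id M O μ d k h W B 1 (c + 1), ∃ x ∈ O, F x ≠ 0

/-- Multiplication by a section raises the level. -/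
def St_MUL : Prop := ∀ (n r : ℕ) (M : Mf n) (O : Set M.X) (μ : Measure M.X) (d k : ℕ)
  (h W : Fin r → M.X → ℂ) (B : M.X → ℝ) (u : ℕ → M.X → ℝ) (j c : ℕ) (s : M.X → ℂ),
  Md M O μ d k h W B u → 0 < j → Pw M O μ h u j s → ∀ F ∈ Id M O μ d k h W B 1 c,
    (fun x => s x * F x) ∈ Id M O μ d k h W B (j + 1) c

/-- The generators. -/
def St_GEN : Prop := ∀ (n r : ℕ) (M : Mf n) (O : Set M.X) (μ : Measure M.X) (d k : ℕ)
  (h W : Fin r → M.X → ℂ) (B : M.X → ℝ) (u : ℕ → M.X → ℝ), Md M O μ d k h W B u →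
  ∃ (c m : ℕ) (C : Fin m → M.X → ℂ), 0 < m ∧ (∀ i, C i ∈ Se M O μ h u 1 c ∧ C i ≠ 0) ∧
    Gq O h W C ∧ ∀ j : ℕ, 0 < j → ∀ s, Pw M O μ h u j s → ∀ a l,
      Cb O h j C fun x => s x * C l x * h a x ^ (2 * j) / W a x ^ j

/-- The common denominator. -/
def St_DEN : Prop := ∀ (n r : ℕ) (M : Mf n) (O : Set M.X) (μ : Measure M.X) (d k : ℕ)
  (h W : Fin r → M.X → ℂ) (B : M.X → ℝ) (u : ℕ → M.X → ℝ) (c m : ℕ) (C : Fin m → M.X → ℂ),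
  Md M O μ d k h W B u → Rk M O μ h u → 0 < m → (∀ i, C i ∈ Se M O μ h u 1 c ∧ C i ≠ 0) →
  ∃ (e : ℕ) (Q : Fin m → MvPolynomial (Fin r) ℂ) (τ : M.X → ℂ), Fm O h e Q ∧
    ∀ x ∈ Oq O h Q, τ x ≠ 0 ∧ ∀ i, C i x = τ x * pv h (Q i) x

/-- The theorem of the first block. -/
def St_JJ : Prop := ∀ (n r : ℕ) (M : Mf n) (O : Set M.X) (μ : Measure M.X) (d k : ℕ)
  (h W : Fin r → M.X → ℂ) (B : M.X → ℝ) (u : ℕ → M.X → ℝ), Md M O μ d k h W B u →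
  Rk M O μ h u → ∃ (m e : ℕ) (Q : Fin m → MvPolynomial (Fin r) ℂ), Fm O h e Q ∧
    (∀ (r' : ℕ) (ε : Fin r' ≃ Fin r × Fin m), Nf (Oq O h Q)
      (fun β y => h (ε β).1 y * pv h (Q (ε β).2) y) fun β y => W (ε β).1 y * pv h (Q (ε β).2) y) ∧
    ∀ j : ℕ, 0 < j → ∀ s, Pw M O μ h u j s → ∀ a l, Cb (Oq O h Q) h j (fun i => pv h (Q i))
      fun x => s x * pv h (Q l) x * h a x ^ (2 * j) / W a x ^ j

/-- The model of block C and its sections. -/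
def St_BRG : Prop := ∀ (Y I K : Type) [Fintype I] [Fintype K] (r m : ℕ) (O : Set Y)
  (e₀ : Fin r ≃ I × K) (a : I → Y → ℂ) (b : K → Y → ℂ) (Q : Fin m → Y → ℂ),
  (∀ x ∈ O, (∀ i, a i x ≠ 0) ∧ (∀ j, b j x ≠ 0) ∧ ∀ i, Q i x ≠ 0) →
  (∀ (r' : ℕ) (ε : Fin r' ≃ Fin r × Fin m),
    Nf O (fun β y => a (e₀ (ε β).1).1 y * b (e₀ (ε β).1).2 y * Q (ε β).2 y)
      (fun β y => a (e₀ (ε β).1).1 y ^ 2 * Q (ε β).2 y) →
    Mdl (Clo fun x : O => sg (fun p : I × Fin m => a p.1 x * Q p.2 x,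
      fun p : K × Fin m => b p.1 x * Q p.2 x)) 1) ∧
  ∀ (q : ℕ) (s : Y → ℂ), 0 < r → 0 < m →
    (∀ α l, Cb O (fun β y => a (e₀ β).1 y * b (e₀ β).2 y) q Q fun x =>
      s x * Q l x * (a (e₀ α).1 x * b (e₀ α).2 x) ^ (2 * q) / (a (e₀ α).1 x ^ 2) ^ q) →
    ∃ S, Sec (Clo fun x : O => sg (fun p : I × Fin m => a p.1 x * Q p.2 x,
      fun p : K × Fin m => b p.1 x * Q p.2 x)) q 0 S ∧ ∀ x ∈ O,
      S (fun p => a p.1 x * Q p.2 x, fun p => b p.1 x * Q p.2 x) = s x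

/-- The map to the model; sections and weights as functions on the manifold. -/
def St_PUL : Prop := ∀ (n : ℕ) (M : Mf n) (O : Set M.X) (I J : Type) [Fintype I] [Fintype J]
  (Z : Set (I × J → ℂ)) (a : I → M.X → ℂ) (b : J → M.X → ℂ),
  (IsOpen O → O.Nonempty → Nonempty I → Nonempty J → Cone Z → (∀ i, HoK M O (a i)) →
    (∀ j, HoK M O (b j)) → (∀ x ∈ O, (∀ i, a i x ≠ 0) ∧ ∀ j, b j x ≠ 0) →
    (∀ x ∈ O, sg ((a · x), (b · x)) ∈ Z) → ∃ p, Mq M O Z a b p) ∧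
  ∀ p, Mq M O Z a b p →
    (∀ (q e : ℕ) (s : Fn I J), Sec Z q e s → HoK M O (fun x => s ((a · x), (b · x))) ∧ ∀ x ∈ O,
      s ((a · x), (b · x)) = (Real.exp
        ((q * Real.log (tq a b x) + e * Real.log (hp a b x)) / 2) : ℝ) * s (p x).1 ∧
      normSq (s ((a · x), (b · x))) = normSq (s (p x).1) *
        Real.exp (q * Real.log (tq a b x) + e * Real.log (hp a b x))) ∧
    ∀ (y c : ℝ) (β : Sph Z → ℝ), Adm Z y c β →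
      PsK M O fun x => β (p x) + (y * Real.log (tq a b x) + c * Real.log (hp a b x))

/-- The inequality given by the test section. -/
def St_TST : Prop := ∀ (n : ℕ) (M : Mf n) (O : Set M.X) (ν : Measure M.X) (U U' : M.X → ℂ)
  (ψ φ : M.X → ℝ) (θ : ℝ), Ms M O ν → HqB M O ν → HoK M O U → HoK M O U' → PsK M O ψ →
  PsK M O φ → 0 < θ → Iv ν (fun x => normSq (U x) * normSq (U' x) *
    (normSq (U x) + Real.exp (ψ x)) ^ (-2 - θ) * Real.exp (-φ x)) ≠ ⊤ →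
  Iv ν (fun x => Real.exp (ψ x) * normSq (U' x) *
    (normSq (U x) + Real.exp (ψ x)) ^ (-2 - θ) * Real.exp (-φ x)) ≠ ⊤ →
  ∃ F, HoK M O F ∧ Iv ν (fun x => normSq (F x) *
      ((normSq (U x) + Real.exp (ψ x)) ^ (-θ) * Real.exp (-φ x))) ≠ ⊤ ∧
    Iv ν (fun x => normSq (U' x * (star (U x) * ((normSq (U x) + Real.exp (ψ x))⁻¹ : ℝ)) - F x) *
      ((normSq (U x) + Real.exp (ψ x)) ^ (-θ) * Real.exp (-φ x))) ≤
    ENNReal.ofReal (1 / θ) * Iv ν fun x => Real.exp (ψ x) * normSq (U' x) *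
      (normSq (U x) + Real.exp (ψ x)) ^ (-2 - θ) * Real.exp (-φ x)

/-- The estimate for the image of a measure. -/
def St_GOO : Prop := ∀ (n : ℕ) (M : Mf n) (O : Set M.X) (ν : Measure M.X) (I J : Type)
  [Fintype I] [Fintype J] (Z : Set (I × J → ℂ)) (a : I → M.X → ℂ) (b : J → M.X → ℂ)
  (p : M.X → Sph Z) (x ε : ℝ) (m : Measure (Sph Z)), Mq M O Z a b p → Ms M O ν → HqB M O ν →
  (∀ f : Sph Z → ℝ, Continuous f → (∀ v, 0 ≤ f v) →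
    Iv ν (fun y => tq a b y ^ x * hp a b y ^ (-ε) * f (p y)) = ENNReal.ofReal (∫ v, f v ∂m)) →
  (∀ N : ℕ, 0 < N → x ≤ N → ∀ F, HoK M O F →
    Iv ν (fun y => normSq (F y) * (tq a b y ^ (-(N - x)) * hp a b y ^ (-ε))) ≠ ⊤ →
    ∃ S, Sec Z N 0 S ∧ ∀ y ∈ O, F y = S ((a · y), (b · y))) →
  GoodV Z 1 m x ε fun j => {S | Sec Z j 0 S}

/-- The measure on the model. -/
def St_GDV : Prop := ∀ (n : ℕ) (M : Mf n) (O : Set M.X) (ν : Measure M.X) (I J : Type)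
  [Fintype I] [Fintype J] (Z : Set (I × J → ℂ)) (a : I → M.X → ℂ) (b : J → M.X → ℂ)
  (p : M.X → Sph Z) (x θ : ℝ), Mq M O Z a b p → Dq M O ν (tq a b) (hp a b) x θ →
  (∀ j : ℕ, Fd {F | HoK M O F ∧ (∀ y ∉ O, F y = 0) ∧
    ∃ C, ∀ y ∈ O, normSq (F y) ≤ C * tq a b y ^ j}) →
  (∀ N : ℕ, 0 < N → x ≤ N → ∀ F, HoK M O F →
    Iv ν (fun y => normSq (F y) * (tq a b y ^ (-(N - x)) * hp a b y ^ (-θ))) ≠ ⊤ →
    ∃ S, Sec Z N 0 S ∧ ∀ y ∈ O, F y = S ((a · y), (b · y))) →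
  ∃ m : ProbabilityMeasure (Sph Z), GoodV Z 1 m x θ (fun j => {S | Sec Z j 0 S}) ∧
    Vs Z m (fun j => {S | Sec Z j 0 S}) ∧ ∃ c : ℝ≥0∞, c ≠ 0 ∧ c ≠ ⊤ ∧
      ∀ f : Sph Z → ℝ≥0∞, Measurable f → ∫⁻ y, ENNReal.ofReal (tq a b y ^ x * hp a b y ^ (-θ)) *
        f (p y) ∂ν = c * ∫⁻ v, f v ∂m

/-- The sections on a nef model. -/
def St_SG : Prop := ∀ (n : ℕ) (M : Mf n) (O : Set M.X) (ν : Measure M.X) (I J : Type)
  [Fintype I] [Fintype J] (Z : Set (I × J → ℂ)) (a : I → M.X → ℂ) (b : J → M.X → ℂ)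
  (p : M.X → Sph Z) (x θ : ℝ), Mdl Z 1 → Mq M O Z a b p → Dq M O ν (tq a b) (hp a b) x θ →
  (∀ j : ℕ, Fd {F | HoK M O F ∧ (∀ y ∉ O, F y = 0) ∧
    ∃ C, ∀ y ∈ O, normSq (F y) ≤ C * tq a b y ^ j}) →
  (∀ N : ℕ, 0 < N → x ≤ N → ∀ F, HoK M O F →
    Iv ν (fun y => normSq (F y) * (tq a b y ^ (-(N - x)) * hp a b y ^ (-θ))) ≠ ⊤ →
    ∃ S, Sec Z N 0 S ∧ ∀ y ∈ O, F y = S ((a · y), (b · y))) →
  ∃ (N r : ℕ) (σ : Fin r → M.X → ℂ), Sig M O ν (tq a b) (hp a b) x θ N σ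

/-- The theorem of the project. -/
def St_SIG : Prop := ∀ (n r r₁ r₂ : ℕ) (M : Mf n) (O : Set M.X) (μ : Measure M.X) (d k : ℕ)
  (ε : Fin r ≃ Fin (r₁ + 1) × Fin (r₂ + 1)) (a : Fin (r₁ + 1) → M.X → ℂ)
  (b : Fin (r₂ + 1) → M.X → ℂ) (B : M.X → ℝ) (u : ℕ → M.X → ℝ)
  (P : Set M.X → Measure M.X → (M.X → ℝ) → ℝ → ℝ → Prop),
  (∀ i, HoK M O (a i)) → (∀ j, HoK M O (b j)) →
  Md M O μ d k (fun β y => a (ε β).1 y * b (ε β).2 y) (fun β y => a (ε β).1 y ^ 2) B u →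
  Rk M O μ (fun β y => a (ε β).1 y * b (ε β).2 y) u →
  Dm M O μ (fun β y => a (ε β).1 y * b (ε β).2 y) u (tq a b) P →
  ∃ (O' : Set M.X) (ν : Measure M.X) (H : M.X → ℝ) (x θ : ℝ) (N r₀ : ℕ) (σ : Fin r₀ → M.X → ℂ),
    O' ⊆ O ∧ P O' ν H x θ ∧ Sig M O' ν (tq a b) H x θ N σ

end Pool.Agent.Lib.KJ
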